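import Pool.Agent.TH594.HE.Rat
import Pool.Agent.TH594.HP.Field

/-!
# Einstein curvature tensors: the pointwise sign
-/

set_option autoImplicit false

namespace Pool.Agent.TH594.HE

open Finset Pool.Agent.TH594.HP
open Pool.Agent.W666.GB (AlgCurv gbc scal roundGB unitCurv CurvField)
open Pool.Agent.W669.HD (T4 gm cp negT addT unitT OpNonneg BiForm gbc_eq cp_unit unit_bi unit_curv
  add_curv)

/-- the polynomial of the theorem -/
noncomputable def pol (m s : ℝ) : ℝ :=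
  1 - m * s + m * (m - 1) * (2 * m - 1) / (2 * (2 * m - 3)) * s ^ 2 -
    m * (m - 1) * (m - 2) * (2 * m - 1) ^ 2 / (6 * (2 * m - 3) * (2 * m - 5)) * s ^ 3

theorem Sp_pol {m : ℝ} (hm : 3 ≤ m) (s : ℝ) :
    Sp m ((2 * m - 1) * s) = 6 * (2 * m - 1) * (2 * m - 3) * (2 * m - 5) * pol m s := by
  have d3 : 2 * m - 3 ≠ 0 := by linarith
  have d5 : 2 * m - 5 ≠ 0 := by linarith
  unfold Sp pol
  field_simp
  ring

variable {m : ℕ} {V : Type} [NormedAddCommGroup V] [InnerProductSpace ℝ V]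

/-- the Ricci tensor of `R` is `(2 m - 1) κ` times the metric -/
def Einstein (e : OrthonormalBasis (Fin m × Bool) ℝ V) (R : V → V → V → V → ℝ) (κ : ℝ) : Prop :=
  ∀ y w : V, ∑ i, R (e i) y (e i) w = (2 * m - 1) * κ * inner ℝ y w

/-- reduction to eigenfamilies -/
theorem reduceE (e : OrthonormalBasis (Fin m × Bool) ℝ V) {R : V → V → V → V → ℝ}
    (hR : AlgCurv R) {c κ : ℝ} (h : OpNonneg (addT R fun x y z w => c * unitT x y z w))
    (hE : Einstein e R (-κ)) :
    ∃ (g : Pr (Fin m × Bool) → Matrix (Fin m × Bool) (Fin m × Bool) ℝ)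
      (lam : Pr (Fin m × Bool) → ℝ), Fam g lam ((2 * m - 1) * (c - κ)) ∧
      (-1) ^ m * gbc e R = 1 / ((8 * Real.pi) ^ m * m.factorial) *
        gm (fun _ : Fin m => (fun i j k l => c * unitCurv i j k l -
          ∑ a, nu (fun p => Real.sqrt (lam p) • g p) a i j *
            nu (fun p => Real.sqrt (lam p) • g p) a k l : T4 m)) := by
  set E : V → V → V → V → ℝ := addT R fun x y z w => c * unitT x y z w with hEdef
  have hC : AlgCurv E := add_curv hR (unit_curv c)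
  have hB : BiForm E := ⟨hC.add, hC.smul, hC.anti, hC.pair⟩
  obtain ⟨n, ν, hν, hEν⟩ := hB.squares (fun i => e i) h
  have hEE : ∀ i j k l, EE ν i j k l = E (e i) (e j) (e k) (e l) := fun i j k l =>
    (hEν i j k l).symm
  have hBN : BiN ν := by
    refine ⟨hν, fun i j k l => ?_⟩
    rw [hEE, hEE, hEE]
    exact hC.bianchi _ _ _ _
  have hrc : ∀ j l, rc ν j l = if j = l then (2 * m - 1) * (c - κ) else 0 := by
    intro j l
    unfold rc
    simp only [hEE, hEdef, addT, cp_unit, Finset.sum_add_distrib]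
    rw [hE (e j) (e l), inner_basis]
    have h1 : ∑ i : Fin m × Bool, c * unitCurv i j i l =
        c * ((2 * m - 1) * if j = l then 1 else 0) := by
      rw [← Finset.mul_sum]
      congr 1
      unfold unitCurv
      simp only [if_true, one_mul, Finset.sum_sub_distrib, Finset.sum_const, Finset.card_univ,
        nsmul_eq_mul]
      have : ∑ i : Fin m × Bool, (if i = l then (1 : ℝ) else 0) * (if j = i then 1 else 0) =
          if j = l then 1 else 0 := by
        rw [Finset.sum_eq_single l]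
        · simp
        · intro i _ hi
          rw [if_neg hi, zero_mul]
        · simp
      rw [this, card_J]; ring
    rw [h1]
    split_ifs <;> ring
  obtain ⟨g, lam, hF, hg⟩ := exists_fam ν hBN hrc
  refine ⟨g, lam, hF, ?_⟩
  rw [gbc_eq]
  congr 2
  funext _ i j k l
  have h3 := hg i j k l
  unfold EE at h3
  rw [h3, ← hEν i j k l, hEdef, ← cp_unit e]
  simp only [cp, negT, addT]
  ring

/-- **the sign, negative version** -/
theorem sign_neg (e : OrthonormalBasis (Fin m × Bool) ℝ V) {R : V → V → V → V → ℝ}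
    (hR : AlgCurv R) {c κ : ℝ} (hc : 0 < c) (hm : 3 ≤ m)
    (h : OpNonneg (addT R fun x y z w => c * unitT x y z w)) (hE : Einstein e R (-κ)) :
    (0 ≤ pol m (1 - κ / c) → 0 ≤ (-1) ^ m * gbc e R) ∧
      (0 < pol m (1 - κ / c) → 0 < (-1) ^ m * gbc e R) := by
  obtain ⟨g, lam, hF, hg⟩ := reduceE e hR h hE
  have hmR : (3 : ℝ) ≤ m := by exact_mod_cast hm
  have hπ := Real.pi_pos
  have hC : 0 < 1 / ((8 * Real.pi) ^ m * (m.factorial : ℝ)) := by positivity
  have h1 := F_sign hF hc hm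
  have e1 : (2 * m - 1) * (c - κ) / c = (2 * (m : ℝ) - 1) * (1 - κ / c) := by
    field_simp
  have d1 : (0 : ℝ) < 2 * m - 1 := by linarith
  have d3 : (0 : ℝ) < 2 * m - 3 := by linarith
  have d5 : (0 : ℝ) < 2 * m - 5 := by linarith
  have hD : (0 : ℝ) < 6 * (2 * m - 1) * (2 * m - 3) * (2 * m - 5) := by positivity
  rw [e1, Sp_pol hmR] at h1
  rw [hg, gm_F _ hc.le]
  exact ⟨fun h2 => mul_nonneg hC.le (h1.1 (mul_nonneg hD.le h2)),
    fun h2 => mul_pos hC (h1.2 (mul_pos hD h2))⟩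

theorem Einstein.neg {e : OrthonormalBasis (Fin m × Bool) ℝ V} {R : V → V → V → V → ℝ} {κ : ℝ}
    (h : Einstein e R κ) : Einstein e (negT R) (-κ) := by
  intro y w
  have := h y w
  unfold negT
  rw [Finset.sum_neg_distrib, this]; ring

/-- **the sign, positive version** -/
theorem sign_pos (e : OrthonormalBasis (Fin m × Bool) ℝ V) {R : V → V → V → V → ℝ}
    (hR : AlgCurv R) {c κ : ℝ} (hc : 0 < c) (hm : 3 ≤ m)
    (h : OpNonneg (addT (negT R) fun x y z w => c * unitT x y z w)) (hE : Einstein e R κ) :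
    (0 ≤ pol m (1 - κ / c) → 0 ≤ gbc e R) ∧ (0 < pol m (1 - κ / c) → 0 < gbc e R) := by
  have h1 := sign_neg e (neg_curv hR) hc hm h hE.neg
  rw [gbc_neg] at h1
  exact h1

/-- the polynomial is positive in the explicit range -/
theorem pol_three {s : ℝ} (h : s ≤ 728 / 1728) : 0 < pol 3 s := by
  have e : pol 3 s = 1 - 3 * s + 5 * s ^ 2 - 25 / 3 * s ^ 3 := by
    unfold pol
    norm_num
  rw [e]
  have e2 : 1 - 3 * s + 5 * s ^ 2 - 25 / 3 * s ^ 3 =
      (1 - 3 * (728 / 1728) + 5 * (728 / 1728) ^ 2 - 25 / 3 * (728 / 1728) ^ 3) +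
      (728 / 1728 - s) * (3 - 5 * (s + 728 / 1728) +
        25 / 3 * (s ^ 2 + s * (728 / 1728) + (728 / 1728) ^ 2)) := by ring
  rw [e2]
  have p1 : (0 : ℝ) < 1 - 3 * (728 / 1728) + 5 * (728 / 1728) ^ 2 - 25 / 3 * (728 / 1728) ^ 3 := by
    norm_num
  have p2 : 0 ≤ (728 / 1728 - s) * (3 - 5 * (s + 728 / 1728) +
        25 / 3 * (s ^ 2 + s * (728 / 1728) + (728 / 1728) ^ 2)) := by
    refine mul_nonneg (by linarith) ?_
    nlinarith [sq_nonneg (s - 1 / 10)]
  linarith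

theorem quad {x u : ℝ} : 3 / 4 * (x + u) ^ 2 ≤ x ^ 2 + x * u + u ^ 2 := by
  nlinarith [sq_nonneg (x - u)]

theorem aux_four {m x u : ℝ} (hm : 4 ≤ m) :
    0 ≤ 6 * m ^ 2 * (2 * m - 3) * (2 * m - 5) -
        3 * m * (m - 1) * (2 * m - 1) * (2 * m - 5) * (x + u) +
        (m - 1) * (m - 2) * (2 * m - 1) ^ 2 * (x ^ 2 + x * u + u ^ 2) := by
  have h5 : 0 < (m - 1) * (m - 2) * (2 * m - 1) ^ 2 :=
    mul_pos (mul_pos (by linarith) (by linarith)) (pow_pos (by linarith) 2)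
  have h6 := mul_le_mul_of_nonneg_left (quad (x := x) (u := u)) h5.le
  have h7 : 0 ≤ (3 * ((m - 1) * (m - 2) * (2 * m - 1) ^ 2)) *
      (6 * m ^ 2 * (2 * m - 3) * (2 * m - 5) -
      3 * m * (m - 1) * (2 * m - 1) * (2 * m - 5) * (x + u) +
      (m - 1) * (m - 2) * (2 * m - 1) ^ 2 * (3 / 4 * (x + u) ^ 2)) := by
    have e3 : (3 * ((m - 1) * (m - 2) * (2 * m - 1) ^ 2)) *
      (6 * m ^ 2 * (2 * m - 3) * (2 * m - 5) -
      3 * m * (m - 1) * (2 * m - 1) * (2 * m - 5) * (x + u) +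
      (m - 1) * (m - 2) * (2 * m - 1) ^ 2 * (3 / 4 * (x + u) ^ 2)) =
      (2 * m - 1) ^ 2 * ((3 / 2 * (m - 1) * (m - 2) * (2 * m - 1) * (x + u) -
        3 * m * (m - 1) * (2 * m - 5)) ^ 2 +
        9 * m ^ 2 * ((m - 1) * (2 * m - 5)) * (2 * m ^ 2 - 7 * m + 7)) := by ring
    rw [e3]
    have q1 : 0 ≤ (m - 1) * (2 * m - 5) := mul_nonneg (by linarith) (by linarith)
    have q2 : 0 ≤ 2 * m ^ 2 - 7 * m + 7 := by nlinarith
    positivity
  have h8 := nonneg_of_mul_nonneg_right h7 (by linarith)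
  linarith

theorem val_four {m : ℝ} (hm : 4 ≤ m) :
    0 < 6 * m ^ 2 * (2 * m - 3) * (2 * m - 5) * (1 - 149 / 100) +
        3 * m * (m - 1) * (2 * m - 1) * (2 * m - 5) * (149 / 100) ^ 2 -
        (m - 1) * (m - 2) * (2 * m - 1) ^ 2 * (149 / 100) ^ 3 := by
  obtain ⟨t, ht⟩ : ∃ t, m = 4 + t := ⟨m - 4, by ring⟩
  have ht0 : 0 ≤ t := by linarith
  rw [ht]
  ring_nf
  positivity

theorem pol_eq {m x : ℝ} (hm : 4 ≤ m) :
    6 * m ^ 2 * (2 * m - 3) * (2 * m - 5) * pol m (x / m) =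
      6 * m ^ 2 * (2 * m - 3) * (2 * m - 5) * (1 - x) +
        3 * m * (m - 1) * (2 * m - 1) * (2 * m - 5) * x ^ 2 -
        (m - 1) * (m - 2) * (2 * m - 1) ^ 2 * x ^ 3 := by
  have d3 : m * 2 - 3 ≠ 0 := by linarith
  have d5 : m * 2 - 5 ≠ 0 := by linarith
  have dm : m ≠ 0 := by linarith
  unfold pol
  rw [mul_comm 2 m]
  field_simp
  ring

theorem pol_four {m s : ℝ} (hm : 4 ≤ m) (h : m * s ≤ 149 / 100) : 0 < pol m s := by
  have d3 : 0 < 2 * m - 3 := by linarith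
  have d5 : 0 < 2 * m - 5 := by linarith
  have dm : 0 < m := by linarith
  obtain ⟨x, hx⟩ : ∃ x, x = m * s := ⟨_, rfl⟩
  have hs : s = x / m := by rw [hx]; field_simp
  rw [← hx] at h
  have e := pol_eq (x := x) hm
  rw [← hs] at e
  have hP := val_four hm
  have h3 := aux_four (x := x) (u := 149 / 100) hm
  have h4 := mul_nonneg (by linarith : 0 ≤ 149 / 100 - x) h3
  have h9 : 0 < 6 * m ^ 2 * (2 * m - 3) * (2 * m - 5) * pol m s := by
    rw [e]
    nlinarith
  have h10 : 0 < 6 * m ^ 2 * (2 * m - 3) * (2 * m - 5) := by positivity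
  exact (pos_iff_pos_of_mul_pos h9).1 h10

end Pool.Agent.TH594.HE
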