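import Pool.Agent.TH594.HE.Pt

/-!
# The equality case in dimension six
-/

set_option autoImplicit false

namespace Pool.Agent.TH594.HE

open Finset Pool.Agent.TH594.HP
open Pool.Agent.W666.GB (AlgCurv gbc scal roundGB unitCurv CurvField)
open Pool.Agent.W669.HD (T4 gm cp negT addT unitT OpNonneg BiForm gbc_eq cp_unit unit_bi unit_curv
  add_curv)

variable {m : ℕ} {V : Type} [NormedAddCommGroup V] [InnerProductSpace ℝ V]

/-- simple two-form -/
noncomputable def pl (u v x y : V) : ℝ := inner ℝ u x * inner ℝ v y - inner ℝ v x * inner ℝ u y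

/-- the sum of the curvature tensors of the coordinate planes -/
noncomputable def SumT (e : OrthonormalBasis (Fin m × Bool) ℝ V) (x y z w : V) : ℝ :=
  ∑ a : Fin m, pl (e (a, false)) (e (a, true)) x y * pl (e (a, false)) (e (a, true)) z w

theorem SumT_curv (e : OrthonormalBasis (Fin m × Bool) ℝ V) (t : ℝ) :
    AlgCurv (fun x y z w => t * SumT e x y z w) where
  add x x' y z w := by
    simp only [SumT, pl, inner_add_right]
    rw [← mul_add, ← Finset.sum_add_distrib]
    congr 1
    exact Finset.sum_congr rfl fun a _ => by ring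
  smul s x y z w := by
    simp only [SumT, pl, inner_smul_right]
    rw [Finset.mul_sum, Finset.mul_sum, Finset.mul_sum]
    exact Finset.sum_congr rfl fun a _ => by ring
  anti x y z w := by
    simp only [SumT, pl]
    rw [← mul_neg, ← Finset.sum_neg_distrib]
    congr 1
    exact Finset.sum_congr rfl fun a _ => by ring
  pair x y z w := by
    simp only [SumT, pl]
    congr 1
    exact Finset.sum_congr rfl fun a _ => by ring
  bianchi x y z w := by
    simp only [SumT, pl]
    rw [← mul_add, ← mul_add, ← Finset.sum_add_distrib, ← Finset.sum_add_distrib]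
    have : ∀ F : Fin m → ℝ, (∀ a, F a = 0) → t * ∑ a, F a = 0 := by
      intro F hF
      rw [Finset.sum_eq_zero fun a _ => hF a, mul_zero]
    exact this _ fun a => by ring

theorem sum_plane (e : OrthonormalBasis (Fin m × Bool) ℝ V) (y w : V) :
    ∑ i, SumT e (e i) y (e i) w = inner ℝ y w := by
  unfold SumT pl
  rw [Finset.sum_comm]
  have h1 : ∀ a : Fin m, ∑ i, (inner ℝ (e (a, false)) (e i) * inner ℝ (e (a, true)) y -
      inner ℝ (e (a, true)) (e i) * inner ℝ (e (a, false)) y) *
      (inner ℝ (e (a, false)) (e i) * inner ℝ (e (a, true)) w -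
      inner ℝ (e (a, true)) (e i) * inner ℝ (e (a, false)) w) =
      ∑ b : Bool, inner ℝ (e (a, b)) y * inner ℝ (e (a, b)) w := by
    intro a
    simp only [inner_basis]
    have e1 : ∀ i : Fin m × Bool, ((if (a, false) = i then (1 : ℝ) else 0) * inner ℝ (e (a, true)) y -
        (if (a, true) = i then 1 else 0) * inner ℝ (e (a, false)) y) *
        ((if (a, false) = i then 1 else 0) * inner ℝ (e (a, true)) w -
        (if (a, true) = i then 1 else 0) * inner ℝ (e (a, false)) w) =
        (if (a, false) = i then inner ℝ (e (a, true)) y * inner ℝ (e (a, true)) w else 0) +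
        (if (a, true) = i then inner ℝ (e (a, false)) y * inner ℝ (e (a, false)) w else 0) := by
      intro i
      by_cases h1 : (a, false) = i
      · subst h1
        simp
      · by_cases h2 : (a, true) = i
        · subst h2
          simp
        · simp [h1, h2]
    simp only [e1, Finset.sum_add_distrib, Finset.sum_ite_eq, Finset.mem_univ, if_true,
      Fintype.sum_bool]
    try ring
  simp only [h1]
  rw [← Fintype.sum_prod_type' (f := fun a b => inner ℝ (e (a, b)) y * inner ℝ (e (a, b)) w)]
  have h2 := e.sum_inner_mul_inner y w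
  rw [← h2]
  refine Finset.sum_congr rfl fun i _ => ?_
  rw [real_inner_comm y (e i)]

theorem sum_unit (e : OrthonormalBasis (Fin m × Bool) ℝ V) (y w : V) :
    ∑ i, unitT (e i) y (e i) w = (2 * m - 1) * inner ℝ y w := by
  unfold unitT
  rw [Finset.sum_sub_distrib]
  have h2 := e.sum_inner_mul_inner y w
  have h3 : ∑ i, inner ℝ (e i) w * inner ℝ y (e i) = inner ℝ y w := by
    rw [← h2]
    exact Finset.sum_congr rfl fun i _ => mul_comm _ _
  rw [h3]
  simp only [inner_basis, if_true, one_mul, Finset.sum_const, Finset.card_univ, nsmul_eq_mul]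
  rw [card_J]; ring

/-- the tensors of the equality case -/
noncomputable def Rx (e : OrthonormalBasis (Fin m × Bool) ℝ V) (c t : ℝ) : V → V → V → V → ℝ :=
  fun x y z w => c * unitT x y z w + -t * SumT e x y z w

theorem Rx_curv (e : OrthonormalBasis (Fin m × Bool) ℝ V) (c t : ℝ) : AlgCurv (Rx e c t) :=
  add_curv (unit_curv c) (SumT_curv e (-t))

theorem Rx_Einstein (e : OrthonormalBasis (Fin m × Bool) ℝ V) (c κ : ℝ) :
    Einstein e (Rx e c ((2 * m - 1) * (c - κ))) κ := by
  intro y w
  unfold Rx
  rw [Finset.sum_add_distrib, ← Finset.mul_sum, ← Finset.mul_sum, sum_plane, sum_unit]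
  ring

theorem Rx_op (e : OrthonormalBasis (Fin m × Bool) ℝ V) {c t : ℝ} (ht : 0 ≤ t) :
    OpNonneg (addT (negT (Rx e c t)) fun x y z w => c * unitT x y z w) := by
  intro n x y
  have h1 : ∑ a, ∑ b, (addT (negT (Rx e c t)) fun x y z w => c * unitT x y z w)
      (x a) (y a) (x b) (y b) =
      t * ∑ q : Fin m, (∑ a, pl (e (q, false)) (e (q, true)) (x a) (y a)) ^ 2 := by
    have e1 : ∀ a b, (addT (negT (Rx e c t)) fun x y z w => c * unitT x y z w)
        (x a) (y a) (x b) (y b) = ∑ q : Fin m, t * (pl (e (q, false)) (e (q, true)) (x a) (y a) *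
          pl (e (q, false)) (e (q, true)) (x b) (y b)) := by
      intro a b
      unfold addT negT Rx SumT
      rw [← Finset.mul_sum]; ring
    simp only [e1]
    have e2 : ∀ G : Fin n → Fin n → Fin m → ℝ, ∑ a, ∑ b, ∑ q, G a b q = ∑ q, ∑ a, ∑ b, G a b q := by
      intro G
      have s1 : ∑ a, ∑ b, ∑ q, G a b q = ∑ a, ∑ q, ∑ b, G a b q :=
        Finset.sum_congr rfl fun a _ => Finset.sum_comm
      rw [s1, Finset.sum_comm]
    rw [e2, Finset.mul_sum]
    refine Finset.sum_congr rfl fun q _ => ?_
    rw [pow_two, Finset.sum_mul_sum, Finset.mul_sum]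
    refine Finset.sum_congr rfl fun a _ => ?_
    rw [Finset.mul_sum]
  rw [h1]
  have : 0 ≤ ∑ q : Fin m, (∑ a, pl (e (q, false)) (e (q, true)) (x a) (y a)) ^ 2 :=
    Finset.sum_nonneg fun q _ => sq_nonneg _
  positivity

/-- deltas -/
noncomputable def dA (p i : Fin m × Bool) : ℝ := if p = i then 1 else 0

/-- the family of the example -/
noncomputable def nx (s : ℝ) (a : Fin m) : Matrix (Fin m × Bool) (Fin m × Bool) ℝ := fun i j =>
  s * (dA (a, false) i * dA (a, true) j - dA (a, true) i * dA (a, false) j)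

theorem dA_sum (p q : Fin m × Bool) : ∑ i, dA p i * dA q i = if p = q then 1 else 0 := by
  unfold dA
  rw [Finset.sum_eq_single p]
  · simp [eq_comm]
  · intro i _ hi
    rw [if_neg (Ne.symm hi), zero_mul]
  · simp

theorem nx_EE (e : OrthonormalBasis (Fin m × Bool) ℝ V) {s t : ℝ} (hs : s * s = t)
    (i j k l : Fin m × Bool) :
    EE (nu (nx (m := m) s)) i j k l = t * SumT e (e i) (e j) (e k) (e l) := by
  unfold EE nu nx SumT pl
  simp only [inner_basis]
  rw [Finset.mul_sum]
  refine Finset.sum_congr rfl fun a _ => ?_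
  unfold dA
  rw [← hs]; ring

theorem nx_Eis (e : OrthonormalBasis (Fin m × Bool) ℝ V) {s t : ℝ} (hs : s * s = t) :
    Eis (nx (m := m) s) t := by
  refine ⟨⟨fun a i j => ?_, fun i j k l => ?_⟩, fun i j => ?_⟩
  · unfold nu nx; ring
  · rw [nx_EE e hs, nx_EE e hs, nx_EE e hs]
    exact (SumT_curv e t).bianchi _ _ _ _
  · unfold rc
    simp only [nx_EE e hs]
    rw [← Finset.mul_sum, sum_plane, inner_basis]
    split_ifs <;> ring

theorem nx_sp (s : ℝ) (a b : Fin m) :
    sp (nx s a) (nx s b) = if a = b then s * s else 0 := by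
  unfold sp nx
  have h1 : ∀ i j, s * (dA (a, false) i * dA (a, true) j - dA (a, true) i * dA (a, false) j) *
      (s * (dA (b, false) i * dA (b, true) j - dA (b, true) i * dA (b, false) j)) =
      s * s * ((dA (a, false) i * dA (b, false) i) * (dA (a, true) j * dA (b, true) j) -
        (dA (a, false) i * dA (b, true) i) * (dA (a, true) j * dA (b, false) j) -
        (dA (a, true) i * dA (b, false) i) * (dA (a, false) j * dA (b, true) j) +
        (dA (a, true) i * dA (b, true) i) * (dA (a, false) j * dA (b, false) j)) := by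
    intro i j; ring
  simp only [h1, ← Finset.mul_sum, Finset.sum_add_distrib, Finset.sum_sub_distrib,
    ← Finset.sum_mul, dA_sum]
  by_cases hab : a = b
  · subst hab
    simp
    ring
  · simp [hab]

theorem nx_Ort {s t : ℝ} (hs : s * s = t) : Ort (nx (m := m) s) (fun _ => t) := by
  refine ⟨fun a => ?_, fun a b hab => ?_⟩
  · rw [nx_sp, if_pos rfl, hs]
  · rw [nx_sp, if_neg hab]

theorem nx_mul (s : ℝ) {a b : Fin m} (hab : a ≠ b) : nx s a * nx s b = 0 := by
  ext i k
  rw [Matrix.mul_apply, Matrix.zero_apply]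
  unfold nx
  have h1 : ∀ j, s * (dA (a, false) i * dA (a, true) j - dA (a, true) i * dA (a, false) j) *
      (s * (dA (b, false) j * dA (b, true) k - dA (b, true) j * dA (b, false) k)) =
      s * s * dA (a, false) i * dA (b, true) k * (dA (a, true) j * dA (b, false) j) -
        s * s * dA (a, false) i * dA (b, false) k * (dA (a, true) j * dA (b, true) j) -
        s * s * dA (a, true) i * dA (b, true) k * (dA (a, false) j * dA (b, false) j) +
        s * s * dA (a, true) i * dA (b, false) k * (dA (a, false) j * dA (b, true) j) := by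
    intro j; ring
  simp only [h1, ← Finset.mul_sum, Finset.sum_add_distrib, Finset.sum_sub_distrib, dA_sum]
  simp [hab]

theorem nx_br (s : ℝ) (a b : Fin m) : br (nx s a) (nx s b) = 0 := by
  unfold br
  by_cases hab : a = b
  · subst hab
    rw [sub_self]
  · rw [nx_mul s hab, nx_mul s (Ne.symm hab), sub_self]

section

variable {J : Type*} [Fintype J] [DecidableEq J] {K : Type*} [Fintype K]

/-- the third trace of a commuting family -/
theorem w3_comm {ν : K → Matrix J J ℝ} {ρ : ℝ} (h : Eis ν ρ) (hb : ∀ a b, br (ν a) (ν b) = 0) :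
    w (nu ν) 3 = 2 * (ρ * (Fintype.card J - 4)) * w (nu ν) 2 := by
  have h0 : ∀ a b, Dn (nu ν) (LM (ν b) (LM (ν a) (vac : Fk J))) = 0 := by
    intro a b
    unfold Dn
    refine Finset.sum_eq_zero fun c _ => ?_
    have e1 : ∑ i, ∑ j, nu ν c i j • cr i (an j (LM (ν b) (LM (ν a) (vac : Fk J)))) =
        Dv (ν c) (LM (ν b) (LM (ν a) vac)) := rfl
    have e2 : ν c * ν a - ν a * ν c = 0 := hb c a
    have e3 : ν c * ν b - ν b * ν c = 0 := hb c b
    rw [e1, Dv_four (h.sk b) (h.sk a) (h.sk c), e2, e3, L_zero, map_zero, L_zero, add_zero]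
    exact ip_zero_left _
  rw [w_three', w_two', Finset.mul_sum]
  refine Finset.sum_congr rfl fun a _ => ?_
  unfold Ls
  rw [Finset.mul_sum]
  refine Finset.sum_congr rfl fun b _ => ?_
  have e2 : Dg 4 (LM (ν b) (LM (ν a) (vac : Fk J))) := Dg_LM (Dg_LM Dg_vac _) _
  have e3 := h.exact e2
  rw [h0, mul_zero, sub_zero] at e3
  have e4 : ∑ c, nn (L (nu ν c) (LM (ν b) (LM (ν a) (vac : Fk J)))) =
      Ls (nu ν) (LM (ν b) (LM (ν a) (vac : Fk J))) := rfl
  rw [e4, e3]
  push_cast
  rfl

end

/-- **the equality case in dimension six** -/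
theorem eq_six (e : OrthonormalBasis (Fin 3 × Bool) ℝ V) {c s : ℝ} (hc : 0 < c) (hs : 0 ≤ s) :
    gbc e (Rx e c (5 * (c * s))) = pol 3 s * roundGB 3 c := by
  set t := 5 * (c * s) with ht
  have ht0 : 0 ≤ t := by positivity
  set q := Real.sqrt t with hq
  have hqq : q * q = t := Real.mul_self_sqrt ht0
  have hE : Eis (nx (m := 3) q) t := nx_Eis e hqq
  have hO : Ort (nx (m := 3) q) (fun _ => t) := nx_Ort hqq
  have hg : gbc e (Rx e c t) = 1 / ((8 * Real.pi) ^ 3 * (Nat.factorial 3)) *
      gm (fun _ : Fin 3 => (fun i j k l => c * unitCurv i j k l -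
          ∑ a, nu (nx (m := 3) q) a i j * nu (nx (m := 3) q) a k l : T4 3)) := by
    rw [← gbc_neg, gbc_eq, negneg]
    congr 2
    funext _ i j k l
    have h3 := nx_EE e hqq i j k l
    unfold EE at h3
    rw [h3, ← cp_unit e]
    simp only [cp, Rx]
    ring
  have hw3 := w3_comm hE (nx_br q)
  have hw2 := w2_eq hE hO
  rw [card_J] at hw2 hw3
  have e1 : TT (nu (nx (m := 3) q)) c 0 = 5760 * c ^ 3 := by
    rw [TT_eq, w_zero]
    unfold GG
    simp only [Nat.choose_zero_right, Nat.sub_zero]
    norm_num [Nat.factorial]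
    ring
  have e2 : TT (nu (nx (m := 3) q)) c 1 = 3456 * c ^ 2 * t := by
    rw [TT_eq, w_one hE.bi.anti, hE.tt, card_J]
    unfold GG
    norm_num [Nat.factorial, Nat.choose]
    ring
  have e3 : TT (nu (nx (m := 3) q)) c 2 = 1152 * c * t ^ 2 := by
    rw [TT_eq, hw2]
    unfold GG
    norm_num [Nat.factorial, Nat.choose]
    ring
  have e4 : TT (nu (nx (m := 3) q)) c 3 = 384 * t ^ 3 := by
    rw [TT_eq, hw3, hw2]
    unfold GG
    norm_num [Nat.factorial, Nat.choose]
    ring
  have hp : pol 3 s = 1 - 3 * s + 5 * s ^ 2 - 25 / 3 * s ^ 3 := by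
    unfold pol
    norm_num
  rw [hg, gm_F _ hc.le, F_thr, e1, e2, e3, e4, hp]
  unfold roundGB
  rw [ht]
  have hπ := Real.pi_pos
  norm_num [Nat.factorial]
  field_simp
  ring

end Pool.Agent.TH594.HE
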