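import Pool.Agent.TH594.HE.Ein

/-!
# Spectral decomposition of a nonnegative curvature operator
-/

set_option autoImplicit false

namespace Pool.Agent.TH594.HE

open Finset Pool.Agent.TH594.HP

variable {J : Type*} [Fintype J] [DecidableEq J]

/-- ordered pairs -/
abbrev Pr (J : Type*) [Fintype J] : Type _ := {x : J × J // pos x.1 < pos x.2}

noncomputable instance : DecidableEq (Pr J) := Classical.decEq _

theorem sum_pairs (F : J → J → ℝ) (hs : ∀ i j, F i j = F j i) (hd : ∀ i, F i i = 0) :
    ∑ i, ∑ j, F i j = 2 * ∑ r : Pr J, F r.1.1 r.1.2 := by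
  have h1 : ∑ i, ∑ j, F i j = ∑ x : J × J, F x.1 x.2 := by rw [Fintype.sum_prod_type]
  have h2 : ∀ x : J × J, F x.1 x.2 = (if pos x.1 < pos x.2 then F x.1 x.2 else 0) +
      (if pos x.2 < pos x.1 then F x.1 x.2 else 0) := by
    intro x
    rcases lt_trichotomy (pos x.1) (pos x.2) with h | h | h
    · rw [if_pos h, if_neg (by omega), add_zero]
    · rw [if_neg (by omega), if_neg (by omega), pos_inj h, hd, add_zero]
    · rw [if_neg (by omega), if_pos h, zero_add]
  have h3 : ∑ x : J × J, (if pos x.2 < pos x.1 then F x.1 x.2 else 0) =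
      ∑ x : J × J, (if pos x.1 < pos x.2 then F x.1 x.2 else 0) := by
    refine Fintype.sum_equiv (Equiv.prodComm J J) _ _ fun x => ?_
    simp only [Equiv.prodComm_apply, Prod.fst_swap, Prod.snd_swap]
    rw [hs]
  have h4 : ∑ x : J × J, (if pos x.1 < pos x.2 then F x.1 x.2 else 0) =
      ∑ r : Pr J, F r.1.1 r.1.2 := by
    rw [← Finset.sum_filter]
    exact Finset.sum_subtype _ (fun x => by simp) _
  rw [h1, Finset.sum_congr rfl fun x _ => h2 x, Finset.sum_add_distrib, h3, h4]
  ring

theorem anti4 (G : J → J → J → J → ℝ) (h1 : ∀ i j k l, G j i k l = -G i j k l)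
    (h2 : ∀ i j k l, G i j l k = -G i j k l)
    (h3 : ∀ i j k l, pos i < pos j → pos k < pos l → G i j k l = 0) (i j k l : J) :
    G i j k l = 0 := by
  have h4 : ∀ i j k l, pos i < pos j → G i j k l = 0 := by
    intro i j k l hij
    rcases lt_trichotomy (pos k) (pos l) with h | h | h
    · exact h3 i j k l hij h
    · have e := pos_inj h
      subst e
      have := h2 i j k k
      linarith
    · rw [h2, h3 i j l k hij h, neg_zero]
  rcases lt_trichotomy (pos i) (pos j) with h | h | h
  · exact h4 i j k l h
  · have e := pos_inj h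
    subst e
    have := h1 i i k l
    linarith
  · rw [h1, h4 j i k l h, neg_zero]

/-- the skew matrix with given entries above the diagonal -/
noncomputable def ext (u : Pr J → ℝ) : Matrix J J ℝ := fun i j =>
  if h : pos i < pos j then u ⟨(i, j), h⟩ else if h : pos j < pos i then -u ⟨(j, i), h⟩ else 0

theorem ext_lt (u : Pr J → ℝ) {i j : J} (h : pos i < pos j) : ext u i j = u ⟨(i, j), h⟩ := by
  unfold ext
  rw [dif_pos h]

theorem ext_sk (u : Pr J → ℝ) : Sk (ext u) := by
  intro i j
  unfold ext
  rcases lt_trichotomy (pos i) (pos j) with h | h | h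
  · rw [dif_neg (by omega), dif_pos h, dif_pos h]
  · rw [dif_neg (by omega), dif_neg (by omega), dif_neg (by omega), dif_neg (by omega), neg_zero]
  · rw [dif_pos h, dif_neg (by omega), dif_pos h, neg_neg]

theorem sp_ext (u v : Pr J → ℝ) : sp (ext u) (ext v) = ∑ r, u r * v r := by
  unfold sp
  rw [sum_pairs (fun i j => ext u i j * ext v i j)
    (fun i j => by rw [ext_sk u i j, ext_sk v i j]; ring)
    (fun i => by rw [(ext_sk u).diag i]; ring)]
  rw [← mul_assoc]
  norm_num
  refine Finset.sum_congr rfl fun r _ => ?_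
  rw [ext_lt u r.2, ext_lt v r.2]

/-- spectral decomposition -/
theorem decomp {K : Type*} [Fintype K] (μ : K → J → J → ℝ) (ha : ∀ a i j, μ a j i = - μ a i j) :
    ∃ (h : Pr J → Matrix J J ℝ) (lam : Pr J → ℝ), (∀ p, Sk (h p)) ∧ (∀ p, 0 ≤ lam p) ∧
      (∀ p q, sp (h p) (h q) = if p = q then 1 else 0) ∧
      (∀ i j k l, ∑ p, h p i j * h p k l =
        (if i = k then 1 else 0) * (if j = l then 1 else 0) -
          (if i = l then 1 else 0) * (if j = k then 1 else 0)) ∧
      (∀ i j k l, EE μ i j k l = ∑ p, lam p * (h p i j * h p k l)) := by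
  set M : Matrix (Pr J) (Pr J) ℝ := fun p q => EE μ p.1.1 p.1.2 q.1.1 q.1.2 with hM
  have hH : M.IsHermitian := by
    ext p q
    rw [Matrix.conjTranspose_apply, star_trivial]
    exact EE_pair μ _ _ _ _
  set b := hH.eigenvectorBasis with hb
  set u : Pr J → Pr J → ℝ := fun p q => (b p) q with hu
  have horth : ∀ p q, ∑ r, u p r * u q r = if p = q then 1 else 0 := by
    intro p q
    have h1 := orthonormal_iff_ite.mp b.orthonormal p q
    rw [← h1, PiLp.inner_apply]
    refine Finset.sum_congr rfl fun r _ => ?_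
    simp [u, mul_comm]
  set U : Matrix (Pr J) (Pr J) ℝ := fun p q => u p q with hU
  have hUU : U * U.transpose = 1 := by
    ext p q
    rw [Matrix.mul_apply, Matrix.one_apply, ← horth p q]
    rfl
  have hUU' : U.transpose * U = 1 := mul_eq_one_comm.mp hUU
  have hcomp : ∀ q r, ∑ p, u p q * u p r = if q = r then 1 else 0 := by
    intro q r
    have := congrFun (congrFun hUU' q) r
    rw [Matrix.mul_apply, Matrix.one_apply] at this
    rw [← this]
    rfl
  have heig : ∀ p q, ∑ r, M q r * u p r = hH.eigenvalues p * u p q := by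
    intro p q
    have := congrFun (hH.mulVec_eigenvectorBasis p) q
    simpa [Matrix.mulVec, dotProduct, u] using this
  have hMs : ∀ q r, M q r = ∑ p, hH.eigenvalues p * (u p q * u p r) := by
    intro q r
    have h1 : M q r = ∑ s, M q s * (if s = r then 1 else 0) := by simp
    rw [h1]
    simp only [← hcomp, Finset.mul_sum]
    rw [Finset.sum_comm]
    refine Finset.sum_congr rfl fun p _ => ?_
    have h2 : ∑ s, M q s * (u p s * u p r) = (∑ s, M q s * u p s) * u p r := by
      rw [Finset.sum_mul]
      exact Finset.sum_congr rfl fun s _ => by ring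
    rw [h2, heig]; ring
  have hpos : ∀ p, 0 ≤ hH.eigenvalues p := by
    intro p
    have h1 : hH.eigenvalues p = ∑ q, u p q * ∑ r, M q r * u p r := by
      simp only [heig]
      have h2 : ∑ q, u p q * (hH.eigenvalues p * u p q) =
          hH.eigenvalues p * ∑ q, u p q * u p q := by
        rw [Finset.mul_sum]
        exact Finset.sum_congr rfl fun q _ => by ring
      rw [h2, horth p p, if_pos rfl, mul_one]
    have h3 : ∑ q, u p q * ∑ r, M q r * u p r = ∑ a, (∑ q : Pr J, u p q * μ a q.1.1 q.1.2) ^ 2 := by
      have e1 : ∀ a, (∑ q : Pr J, u p q * μ a q.1.1 q.1.2) ^ 2 =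
          ∑ q, ∑ r, u p q * (μ a q.1.1 q.1.2 * μ a r.1.1 r.1.2 * u p r) := by
        intro a
        rw [pow_two, Finset.sum_mul_sum]
        exact Finset.sum_congr rfl fun q _ => Finset.sum_congr rfl fun r _ => by ring
      simp only [e1]
      rw [Finset.sum_comm]
      refine Finset.sum_congr rfl fun q _ => ?_
      rw [Finset.sum_comm, Finset.mul_sum]
      refine Finset.sum_congr rfl fun r _ => ?_
      rw [hM]
      simp only [EE, Finset.sum_mul, Finset.mul_sum]
    rw [h1, h3]
    exact Finset.sum_nonneg fun a _ => sq_nonneg _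
  refine ⟨fun p => ext (u p), hH.eigenvalues, fun p => ext_sk _, hpos, ?_, ?_, ?_⟩
  · intro p q
    rw [sp_ext, horth]
  · intro i j k l
    have := anti4 (fun i j k l => ∑ p, ext (u p) i j * ext (u p) k l -
      ((if i = k then (1 : ℝ) else 0) * (if j = l then 1 else 0) -
          (if i = l then 1 else 0) * (if j = k then 1 else 0))) ?_ ?_ ?_ i j k l
    · linarith
    · intro i j k l
      have e1 : ∑ p, ext (u p) j i * ext (u p) k l = -∑ p, ext (u p) i j * ext (u p) k l := by
        rw [← Finset.sum_neg_distrib]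
        exact Finset.sum_congr rfl fun p _ => by rw [ext_sk (u p) i j]; ring
      rw [e1]; ring
    · intro i j k l
      have e1 : ∑ p, ext (u p) i j * ext (u p) l k = -∑ p, ext (u p) i j * ext (u p) k l := by
        rw [← Finset.sum_neg_distrib]
        exact Finset.sum_congr rfl fun p _ => by rw [ext_sk (u p) k l]; ring
      rw [e1]; ring
    · intro i j k l hij hkl
      have e1 : ∑ p, ext (u p) i j * ext (u p) k l =
          if (⟨(i, j), hij⟩ : Pr J) = ⟨(k, l), hkl⟩ then 1 else 0 := by
        rw [← hcomp]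
        exact Finset.sum_congr rfl fun p _ => by rw [ext_lt _ hij, ext_lt _ hkl]
      rw [e1]
      by_cases h1 : i = k
      · by_cases h2 : j = l
        · subst h1 h2
          have h3 : i ≠ j := by
            rintro rfl
            omega
          simp [h3]
        · have h3 : ¬ (i = l ∧ j = k) := by
            rintro ⟨rfl, rfl⟩
            omega
          have h4 : ¬ (⟨(i, j), hij⟩ : Pr J) = ⟨(k, l), hkl⟩ := by
            intro h
            simp only [Subtype.mk.injEq, Prod.mk.injEq] at h
            exact h2 h.2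
          rw [if_neg h4, if_neg h2]
          by_cases h5 : i = l
          · have h6 : j ≠ k := fun h => h3 ⟨h5, h⟩
            rw [if_neg h6]; ring
          · rw [if_neg h5]; ring
      · have h3 : ¬ (i = l ∧ j = k) := by
          rintro ⟨rfl, rfl⟩
          omega
        have h4 : ¬ (⟨(i, j), hij⟩ : Pr J) = ⟨(k, l), hkl⟩ := by
          intro h
          simp only [Subtype.mk.injEq, Prod.mk.injEq] at h
          exact h1 h.1
        rw [if_neg h4, if_neg h1]
        by_cases h5 : i = l
        · have h6 : j ≠ k := fun h => h3 ⟨h5, h⟩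
          rw [if_neg h6]; ring
        · rw [if_neg h5]; ring
  · intro i j k l
    have := anti4 (fun i j k l => EE μ i j k l -
      ∑ p, hH.eigenvalues p * (ext (u p) i j * ext (u p) k l)) ?_ ?_ ?_ i j k l
    · linarith
    · intro i j k l
      have e1 : ∑ p, hH.eigenvalues p * (ext (u p) j i * ext (u p) k l) =
          -∑ p, hH.eigenvalues p * (ext (u p) i j * ext (u p) k l) := by
        rw [← Finset.sum_neg_distrib]
        exact Finset.sum_congr rfl fun p _ => by rw [ext_sk (u p) i j]; ring
      rw [e1, EE_12 ha i j]; ring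
    · intro i j k l
      have e1 : ∑ p, hH.eigenvalues p * (ext (u p) i j * ext (u p) l k) =
          -∑ p, hH.eigenvalues p * (ext (u p) i j * ext (u p) k l) := by
        rw [← Finset.sum_neg_distrib]
        exact Finset.sum_congr rfl fun p _ => by rw [ext_sk (u p) k l]; ring
      rw [e1, EE_34 ha i j k l]; ring
    · intro i j k l hij hkl
      have e1 := hMs ⟨(i, j), hij⟩ ⟨(k, l), hkl⟩
      rw [sub_eq_zero]
      refine Eq.trans e1 ?_
      exact Finset.sum_congr rfl fun p _ => by rw [ext_lt _ hij, ext_lt _ hkl]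

end Pool.Agent.TH594.HE
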