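import Pool.Agent.TH594.HE.Fk

/-!
# Einstein families of two-forms: the second and the third trace
-/

set_option autoImplicit false

namespace Pool.Agent.TH594.HE

open Finset Pool.Agent.TH594.HP

variable {J : Type*} [Fintype J] [DecidableEq J] {K : Type*} [Fintype K]

/-- the family as functions -/
def nu (ν : K → Matrix J J ℝ) (a : K) (i j : J) : ℝ := ν a i j

/-- antisymmetry, Bianchi identity, Einstein condition -/
structure Eis (ν : K → Matrix J J ℝ) (ρ : ℝ) : Prop where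
  bi : BiN (nu ν)
  ric : ∀ i j, rc (nu ν) i j = if i = j then ρ else 0

variable {ν : K → Matrix J J ℝ} {ρ : ℝ}

theorem Eis.sk (h : Eis ν ρ) (a : K) : Sk (ν a) := fun i j => h.bi.anti a i j

theorem Eis.sq (h : Eis ν ρ) : ∑ a, ν a * ν a = (-ρ) • (1 : Matrix J J ℝ) := by
  ext i j
  rw [Matrix.sum_apply, Matrix.smul_apply, Matrix.one_apply]
  have h1 : ∑ a, (ν a * ν a) i j = - rc (nu ν) i j := by
    unfold rc EE nu
    simp only [Matrix.mul_apply]
    rw [Finset.sum_comm, ← Finset.sum_neg_distrib]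
    refine Finset.sum_congr rfl fun k _ => ?_
    rw [← Finset.sum_neg_distrib]
    refine Finset.sum_congr rfl fun a _ => ?_
    rw [h.sk a k i]; ring
  rw [h1, h.ric, smul_eq_mul]
  split_ifs <;> ring

theorem Eis.mid (h : Eis ν ρ) {H : Matrix J J ℝ} (hH : Sk H) :
    ∑ a, ν a * H * ν a = -∑ a, sp (ν a) H • ν a := by
  ext i j
  rw [Matrix.neg_apply, Matrix.sum_apply, Matrix.sum_apply]
  have h1 : ∑ a, (ν a * H * ν a) i j = ∑ k, ∑ l, H k l * EE (nu ν) i k l j := by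
    simp only [Matrix.mul_apply, Finset.sum_mul]
    have e1 : ∀ G : K → J → J → ℝ, ∑ a, ∑ l, ∑ k, G a l k = ∑ k, ∑ l, ∑ a, G a l k := by
      intro G
      have s1 : ∑ a, ∑ l, ∑ k, G a l k = ∑ a, ∑ k, ∑ l, G a l k :=
        Finset.sum_congr rfl fun a _ => Finset.sum_comm
      rw [s1, Finset.sum_comm]
      exact Finset.sum_congr rfl fun k _ => Finset.sum_comm
    rw [e1]
    refine Finset.sum_congr rfl fun k _ => Finset.sum_congr rfl fun l _ => ?_
    unfold EE nu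
    rw [Finset.mul_sum]
    exact Finset.sum_congr rfl fun a _ => by ring
  have h2 : ∑ a, (sp (ν a) H • ν a) i j = 1 / 2 * ∑ k, ∑ l, H k l * EE (nu ν) k l i j := by
    simp only [Matrix.smul_apply, smul_eq_mul, sp]
    have e1 : ∀ G : K → J → J → ℝ, ∑ a, ∑ k, ∑ l, G a k l = ∑ k, ∑ l, ∑ a, G a k l := by
      intro G
      rw [Finset.sum_comm]
      exact Finset.sum_congr rfl fun k _ => Finset.sum_comm
    have e2 : ∀ a, 1 / 2 * (∑ k, ∑ l, ν a k l * H k l) * ν a i j =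
        ∑ k, ∑ l, 1 / 2 * (H k l * (ν a k l * ν a i j)) := by
      intro a
      rw [mul_assoc, Finset.sum_mul, Finset.mul_sum]
      refine Finset.sum_congr rfl fun k _ => ?_
      rw [Finset.sum_mul, Finset.mul_sum]
      exact Finset.sum_congr rfl fun l _ => by ring
    simp only [e2]
    rw [e1, Finset.mul_sum]
    refine Finset.sum_congr rfl fun k _ => ?_
    rw [Finset.mul_sum]
    refine Finset.sum_congr rfl fun l _ => ?_
    unfold EE nu
    rw [← Finset.mul_sum, ← Finset.mul_sum]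
  rw [h1, h2]
  have h3 : ∑ k, ∑ l, H k l * EE (nu ν) i k l j = - ∑ k, ∑ l, H k l * EE (nu ν) i l k j := by
    rw [Finset.sum_comm, ← Finset.sum_neg_distrib]
    refine Finset.sum_congr rfl fun k _ => ?_
    rw [← Finset.sum_neg_distrib]
    refine Finset.sum_congr rfl fun l _ => ?_
    rw [hH k l]; ring
  have h4 : ∑ k, ∑ l, H k l * EE (nu ν) i k l j + ∑ k, ∑ l, H k l * EE (nu ν) k l i j
      - ∑ k, ∑ l, H k l * EE (nu ν) i l k j = 0 := by
    rw [← Finset.sum_add_distrib, ← Finset.sum_sub_distrib]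
    refine Finset.sum_eq_zero fun k _ => ?_
    rw [← Finset.sum_add_distrib, ← Finset.sum_sub_distrib]
    refine Finset.sum_eq_zero fun l _ => ?_
    have b1 := h.bi.bia i k l j
    have b2 := EE_12 h.bi.anti i l k j
    rw [b2] at b1
    linear_combination H k l * b1
  linarith

/-- bracket -/
def br (A B : Matrix J J ℝ) : Matrix J J ℝ := A * B - B * A

omit [DecidableEq J] in
theorem br_sk {A B : Matrix J J ℝ} (hA : Sk A) (hB : Sk B) : Sk (br A B) := hA.br hB

omit [DecidableEq J] in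
theorem br_swap (A B : Matrix J J ℝ) : br A B = -br B A := by
  unfold br
  rw [neg_sub]

omit [DecidableEq J] in
theorem sp_br_swap (A B : Matrix J J ℝ) : sp (br A B) (br A B) = sp (br B A) (br B A) := by
  rw [br_swap A B]
  unfold sp
  simp

omit [DecidableEq J] in
theorem sp_br_self {A C : Matrix J J ℝ} (hA : Sk A) : sp A (br C A) = 0 := by
  unfold br
  rw [sp_sub, sp_tr hA, sp_tr hA, ← Matrix.mul_assoc, ← Matrix.mul_assoc]
  have : Matrix.trace (A * C * A) = Matrix.trace (A * A * C) := by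
    rw [Matrix.mul_assoc, Matrix.trace_mul_comm A (C * A), Matrix.mul_assoc,
      Matrix.trace_mul_comm C (A * A)]
  rw [this]; ring

/-- the sum of the squares of the brackets -/
theorem Eis.brsum (h : Eis ν ρ) {H : Matrix J J ℝ} (hH : Sk H) :
    ∑ b, sp (br H (ν b)) (br H (ν b)) = 2 * (ρ * sp H H - ∑ b, sp (ν b) H ^ 2) := by
  have h1 : ∀ b, sp (br H (ν b)) (br H (ν b)) =
      Matrix.trace (H * H * (ν b * ν b)) - Matrix.trace (H * (ν b * H * ν b)) := by
    intro b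
    rw [sp_tr (br_sk hH (h.sk b))]
    unfold br
    have e1 : (H * ν b - ν b * H) * (H * ν b - ν b * H) =
        H * (ν b * H * ν b) - H * (ν b * ν b) * H - ν b * (H * H * ν b) + ν b * H * ν b * H := by
      noncomm_ring
    rw [e1, Matrix.trace_add, Matrix.trace_sub, Matrix.trace_sub]
    have t1 : Matrix.trace (H * (ν b * ν b) * H) = Matrix.trace (H * H * (ν b * ν b)) := by
      rw [Matrix.trace_mul_comm, ← Matrix.mul_assoc]
    have t2 : Matrix.trace (ν b * (H * H * ν b)) = Matrix.trace (H * H * (ν b * ν b)) := by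
      rw [Matrix.trace_mul_comm]
      simp only [Matrix.mul_assoc]
    have t3 : Matrix.trace (ν b * H * ν b * H) = Matrix.trace (H * (ν b * H * ν b)) := by
      rw [Matrix.trace_mul_comm]
    rw [t1, t2, t3]; ring
  simp only [h1, Finset.sum_sub_distrib]
  have h2 : ∑ b, Matrix.trace (H * H * (ν b * ν b)) = 2 * (ρ * sp H H) := by
    rw [← Matrix.trace_sum, ← Finset.mul_sum, h.sq, Matrix.mul_smul, Matrix.mul_one,
      Matrix.trace_smul, sp_tr hH, smul_eq_mul]
    ring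
  have h3 : ∑ b, Matrix.trace (H * (ν b * H * ν b)) = 2 * ∑ b, sp (ν b) H ^ 2 := by
    rw [← Matrix.trace_sum, ← Finset.mul_sum, h.mid hH, Matrix.mul_neg, Finset.mul_sum,
      Matrix.trace_neg, Matrix.trace_sum, Finset.mul_sum, ← Finset.sum_neg_distrib]
    refine Finset.sum_congr rfl fun b _ => ?_
    rw [Matrix.mul_smul, Matrix.trace_smul, smul_eq_mul]
    have := sp_tr hH (ν b)
    rw [sp_comm H] at this
    have e : Matrix.trace (H * ν b) = -2 * sp (ν b) H := by linarith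
    rw [e]; ring
  rw [h2, h3]; ring

theorem Eis.le (h : Eis ν ρ) {H : Matrix J J ℝ} (hH : Sk H) :
    ∑ b, sp (ν b) H ^ 2 ≤ ρ * sp H H := by
  have h1 := h.brsum hH
  have h2 : 0 ≤ ∑ b, sp (br H (ν b)) (br H (ν b)) :=
    Finset.sum_nonneg fun b _ => sp_self_nonneg _
  linarith

theorem Eis.tt (h : Eis ν ρ) : tt (nu ν) = (Fintype.card J : ℝ) * ρ := by
  rw [tt_eq]
  simp [h.ric]

theorem Eis.Rn (h : Eis ν ρ) {d : ℕ} {f : Fk J} (hf : Dg d f) :
    Rn (nu ν) f = ρ * (d * nn f) := by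
  rw [Rn_diag (fun j l hjl => by rw [h.ric, if_neg hjl])]
  simp only [h.ric, if_true]
  rw [← Finset.mul_sum, sum_nn_an hf]

theorem Eis.upper (h : Eis ν ρ) {d : ℕ} {f : Fk J} (hf : Dg d f) :
    Ls (nu ν) f ≤ 2 * (ρ * (Fintype.card J - d)) * nn f := by
  have h1 := Ls_le h.bi f
  rw [h.tt, h.Rn hf] at h1
  linarith

theorem Eis.lower (h : Eis ν ρ) {d : ℕ} {f : Fk J} (hf : Dg d f) :
    2 * (ρ * (Fintype.card J - 2 * d)) * nn f ≤ Ls (nu ν) f := by
  have h1 := Ls_eq h.bi.anti f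
  have h2 := An_nonneg (nu ν) f
  rw [h.tt, h.Rn hf] at h1
  linarith

theorem Eis.exact (h : Eis ν ρ) {d : ℕ} {f : Fk J} (hf : Dg d f) :
    Ls (nu ν) f = 2 * (ρ * (Fintype.card J - d)) * nn f - 2 * Dn (nu ν) f := by
  have h1 := Ls_eq h.bi.anti f
  have h2 := Dn_eq h.bi f
  rw [h.Rn hf] at h1 h2
  rw [h.tt] at h1
  linarith

theorem Dg_LM {d : ℕ} {f : Fk J} (h : Dg d f) (A : Matrix J J ℝ) : Dg (d + 2) (LM A f) :=
  Dg_L h A

theorem An_two (ν : K → Matrix J J ℝ) (hs : ∀ a, Sk (ν a)) {H : Matrix J J ℝ} (hH : Sk H) :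
    An (nu ν) (LM H vac) = 16 * ∑ b, sp (ν b) H ^ 2 := by
  unfold An
  rw [Finset.mul_sum]
  refine Finset.sum_congr rfl fun b _ => ?_
  have h1 : ∑ i, ∑ j, nu ν b i j • an i (an j (LM H (vac : Fk J))) = -Lm (ν b) (LM H vac) := by
    unfold Lm
    rw [← Finset.sum_neg_distrib]
    refine Finset.sum_congr rfl fun i _ => ?_
    rw [← Finset.sum_neg_distrib]
    refine Finset.sum_congr rfl fun j _ => ?_
    rw [an_an, smul_neg]
    rfl
  rw [h1, Lm_L (hs b) hH, Lm_vac, map_zero, zero_add, Dv_vac, smul_zero, add_zero]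
  have h2 : nn (-((4 * sp (ν b) H) • (vac : Fk J))) = (4 * sp (ν b) H) ^ 2 * nn (vac : Fk J) := by
    unfold nn
    rw [ip_neg_left, ip_neg_right, ip_smul_left, ip_smul_right]; ring
  rw [h2, nn_vac]; ring

/-- orthogonality with squares of the norms `lam` -/
def Ort (ν : K → Matrix J J ℝ) (lam : K → ℝ) : Prop :=
  (∀ a, sp (ν a) (ν a) = lam a) ∧ ∀ a b, a ≠ b → sp (ν a) (ν b) = 0

variable {lam : K → ℝ}

theorem Ort.sum (o : Ort ν lam) (g : K → ℝ) (a : K) :
    ∑ b, sp (ν b) (ν a) * g b = lam a * g a := by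
  classical
  rw [Finset.sum_eq_single a]
  · rw [o.1]
  · intro b _ hb
    rw [o.2 b a hb, zero_mul]
  · simp

theorem Ort.sq (o : Ort ν lam) (a : K) : ∑ b, sp (ν b) (ν a) ^ 2 = lam a ^ 2 := by
  have := o.sum (fun b => sp (ν b) (ν a)) a
  rw [o.1] at this
  rw [pow_two, ← this]
  exact Finset.sum_congr rfl fun b _ => pow_two _

theorem lam_nonneg (o : Ort ν lam) (a : K) : 0 ≤ lam a := by
  rw [← o.1 a]; exact sp_self_nonneg _

theorem lam_le (h : Eis ν ρ) (o : Ort ν lam) (a : K) : lam a ^ 2 ≤ ρ * lam a := by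
  have := h.le (h.sk a)
  rwa [o.sq, o.1] at this

/-- row sums of the brackets -/
theorem rowsum (h : Eis ν ρ) (o : Ort ν lam) (c : K) :
    ∑ a, sp (br (ν c) (ν a)) (br (ν c) (ν a)) = 2 * (lam c * (ρ - lam c)) := by
  rw [h.brsum (h.sk c), o.sq, o.1]; ring

theorem colsum (h : Eis ν ρ) (o : Ort ν lam) (a : K) :
    ∑ c, sp (br (ν c) (ν a)) (br (ν c) (ν a)) = 2 * (lam a * (ρ - lam a)) := by
  rw [← rowsum h o a]
  exact Finset.sum_congr rfl fun c _ => sp_br_swap _ _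

theorem lam_sum (h : Eis ν ρ) (o : Ort ν lam) : ∑ a, lam a = (Fintype.card J : ℝ) * ρ / 2 := by
  have h1 := h.tt
  have h2 : tt (nu ν) = 2 * ∑ a, lam a := by
    rw [Finset.mul_sum]
    simp only [← o.1]
    unfold tt EE nu sp
    have e1 : ∀ G : K → J → J → ℝ, ∑ k, ∑ l, ∑ a, G a k l = ∑ a, ∑ k, ∑ l, G a k l := by
      intro G
      symm
      rw [Finset.sum_comm]
      exact Finset.sum_congr rfl fun k _ => Finset.sum_comm
    rw [e1]
    refine Finset.sum_congr rfl fun a _ => ?_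
    ring
  linarith

theorem w_two' (ν : K → Matrix J J ℝ) :
    w (nu ν) 2 = ∑ a, Ls (nu ν) (LM (ν a) (vac : Fk J)) := by
  rw [w_two]
  rfl

theorem w_three' (ν : K → Matrix J J ℝ) :
    w (nu ν) 3 = ∑ a, ∑ b, Ls (nu ν) (LM (ν b) (LM (ν a) (vac : Fk J))) := by
  unfold w
  rw [pow_succ, pow_two, Module.End.mul_apply, Module.End.mul_apply, O1_apply]
  refine Finset.sum_congr rfl fun a _ => ?_
  rw [O1_apply]
  refine Finset.sum_congr rfl fun b _ => ?_
  rw [O1_nn]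
  rfl

/-- the second trace -/
theorem w2_eq (h : Eis ν ρ) (o : Ort ν lam) :
    w (nu ν) 2 = 4 * (Fintype.card J : ℝ) * (Fintype.card J - 4) * ρ ^ 2 + 16 * ∑ a, lam a ^ 2 := by
  rw [w_two']
  have h1 : ∀ a, Ls (nu ν) (LM (ν a) (vac : Fk J)) =
      8 * (Fintype.card J - 4) * ρ * lam a + 16 * lam a ^ 2 := by
    intro a
    have e1 := Ls_eq h.bi.anti (LM (ν a) (vac : Fk J))
    have e2 : Dg 2 (LM (ν a) (vac : Fk J)) := Dg_LM Dg_vac (ν a)
    rw [h.tt, h.Rn e2, An_two ν h.sk (h.sk a), o.sq, nn_two (h.sk a), o.1] at e1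
    rw [e1]
    push_cast
    ring
  simp only [h1, Finset.sum_add_distrib, ← Finset.mul_sum]
  rw [lam_sum h o]
  ring

/-- the cross term -/
theorem cross (h : Eis ν ρ) (o : Ort ν lam) :
    ∑ a, ∑ b, ∑ c, ip (LM (ν b) (LM (br (ν c) (ν a)) (vac : Fk J)))
      (LM (br (ν c) (ν b)) (LM (ν a) vac)) =
      32 * ∑ a, lam a * (lam a * (ρ - lam a)) - 32 * ∑ a, (ρ - lam a) * (lam a * (ρ - lam a)) := by
  have h1 : ∀ a b c, ip (LM (ν b) (LM (br (ν c) (ν a)) (vac : Fk J)))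
      (LM (br (ν c) (ν b)) (LM (ν a) vac)) =
      16 * (sp (ν b) (ν a) * sp (br (ν c) (ν a)) (br (ν c) (ν b))) +
        32 * sp (br (ν c) (ν a)) (br (ν c) (ν b) * ν b * ν a) := by
    intro a b c
    rw [ip_four (h.sk b) (br_sk (h.sk c) (h.sk b)) (h.sk a) (br_sk (h.sk c) (h.sk a)),
      sp_br_self (h.sk b)]
    ring
  simp only [h1, Finset.sum_add_distrib]
  have h2 : ∑ a, ∑ b, ∑ c, 16 * (sp (ν b) (ν a) * sp (br (ν c) (ν a)) (br (ν c) (ν b))) =
      32 * ∑ a, lam a * (lam a * (ρ - lam a)) := by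
    rw [Finset.mul_sum]
    refine Finset.sum_congr rfl fun a _ => ?_
    have e1 : ∑ b, ∑ c, 16 * (sp (ν b) (ν a) * sp (br (ν c) (ν a)) (br (ν c) (ν b))) =
        ∑ b, sp (ν b) (ν a) * (16 * ∑ c, sp (br (ν c) (ν a)) (br (ν c) (ν b))) := by
      refine Finset.sum_congr rfl fun b _ => ?_
      rw [Finset.mul_sum, Finset.mul_sum]
      exact Finset.sum_congr rfl fun c _ => by ring
    rw [e1, o.sum (fun b => 16 * ∑ c, sp (br (ν c) (ν a)) (br (ν c) (ν b))) a, colsum h o]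
    ring
  have h3 : ∀ a c, ∑ b, sp (br (ν c) (ν a)) (br (ν c) (ν b) * ν b * ν a) =
      -(1 / 2) * ((ρ - lam c) * sp (br (ν c) (ν a)) (br (ν c) (ν a))) := by
    intro a c
    rw [← sp_sum, ← Finset.sum_mul]
    have e1 : ∑ b, br (ν c) (ν b) * ν b = (-(ρ - lam c)) • ν c := by
      have e2 : ∀ b, br (ν c) (ν b) * ν b = ν c * (ν b * ν b) - ν b * ν c * ν b := by
        intro b
        unfold br
        noncomm_ring
      simp only [e2, Finset.sum_sub_distrib]
      rw [← Finset.mul_sum, h.sq, h.mid (h.sk c)]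
      have e3 : ∑ b, sp (ν b) (ν c) • ν b = lam c • ν c := by
        classical
        rw [Finset.sum_eq_single c]
        · rw [o.1]
        · intro b _ hb
          rw [o.2 b c hb, zero_smul]
        · simp
      rw [e3, Matrix.mul_smul, Matrix.mul_one, sub_neg_eq_add, ← add_smul]
      congr 1
      ring
    rw [e1, Matrix.smul_mul, sp_smul, sp_half (br_sk (h.sk c) (h.sk a)) (h.sk c) (h.sk a)]
    unfold br
    ring
  have h4 : ∑ a, ∑ b, ∑ c, 32 * sp (br (ν c) (ν a)) (br (ν c) (ν b) * ν b * ν a) =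
      -(32 * ∑ a, (ρ - lam a) * (lam a * (ρ - lam a))) := by
    have e1 : ∀ G : K → K → K → ℝ, ∑ a, ∑ b, ∑ c, G a b c = ∑ c, ∑ a, ∑ b, G a b c := by
      intro G
      have s1 : ∑ a, ∑ b, ∑ c, G a b c = ∑ a, ∑ c, ∑ b, G a b c :=
        Finset.sum_congr rfl fun a _ => Finset.sum_comm
      rw [s1, Finset.sum_comm]
    rw [e1, Finset.mul_sum, ← Finset.sum_neg_distrib]
    refine Finset.sum_congr rfl fun c _ => ?_
    simp only [← Finset.mul_sum, h3]
    rw [rowsum h o]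
    ring
  rw [h2, h4]
  ring

theorem nn_add' (f g : Fk J) : nn (f + g) = nn f + 2 * ip f g + nn g := nn_add f g

/-- lower bound of the derivations of the products -/
theorem dsum (h : Eis ν ρ) (o : Ort ν lam) :
    32 * (Fintype.card J - 6) * ρ * (∑ a, lam a * (ρ - lam a)) +
      128 * ∑ a, lam a * (lam a * (ρ - lam a)) ≤
      ∑ a, ∑ b, Dn (nu ν) (LM (ν b) (LM (ν a) (vac : Fk J))) := by
  have h1 : ∀ a b, Dn (nu ν) (LM (ν b) (LM (ν a) (vac : Fk J))) =
      ∑ c, (nn (LM (ν b) (LM (br (ν c) (ν a)) (vac : Fk J))) +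
        2 * ip (LM (ν b) (LM (br (ν c) (ν a)) (vac : Fk J))) (LM (br (ν c) (ν b)) (LM (ν a) vac)) +
        nn (LM (ν a) (LM (br (ν c) (ν b)) (vac : Fk J)))) := by
    intro a b
    unfold Dn
    refine Finset.sum_congr rfl fun c _ => ?_
    have e1 : ∑ i, ∑ j, nu ν c i j • cr i (an j (LM (ν b) (LM (ν a) (vac : Fk J)))) =
        Dv (ν c) (LM (ν b) (LM (ν a) vac)) := rfl
    rw [e1, Dv_four (h.sk b) (h.sk a) (h.sk c), nn_add', LM_comm (ν a)]
    rfl
  simp only [h1, Finset.sum_add_distrib, ← Finset.mul_sum]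
  rw [cross h o]
  have hlow : ∀ c a, 8 * (Fintype.card J - 4) * ρ * sp (br (ν c) (ν a)) (br (ν c) (ν a)) ≤
      Ls (nu ν) (LM (br (ν c) (ν a)) (vac : Fk J)) := by
    intro c a
    have e2 : Dg 2 (LM (br (ν c) (ν a)) (vac : Fk J)) := Dg_LM Dg_vac _
    have e1 := h.lower e2
    rw [nn_two (br_sk (h.sk c) (h.sk a))] at e1
    refine le_trans (le_of_eq ?_) e1
    push_cast
    ring
  have hsum : 16 * (Fintype.card J - 4) * ρ * (∑ a, lam a * (ρ - lam a)) ≤
      ∑ a, ∑ c, Ls (nu ν) (LM (br (ν c) (ν a)) (vac : Fk J)) := by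
    have e1 : ∑ a, ∑ c, 8 * (Fintype.card J - 4) * ρ * sp (br (ν c) (ν a)) (br (ν c) (ν a)) =
        16 * (Fintype.card J - 4) * ρ * (∑ a, lam a * (ρ - lam a)) := by
      simp only [← Finset.mul_sum, colsum h o]
      ring
    rw [← e1]
    exact Finset.sum_le_sum fun a _ => Finset.sum_le_sum fun c _ => hlow c a
  have h5 : ∑ a, ∑ b, ∑ c, nn (LM (ν b) (LM (br (ν c) (ν a)) (vac : Fk J))) =
      ∑ a, ∑ c, Ls (nu ν) (LM (br (ν c) (ν a)) (vac : Fk J)) := by
    refine Finset.sum_congr rfl fun a _ => ?_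
    rw [Finset.sum_comm]
    rfl
  have h6 : ∑ a, ∑ b, ∑ c, nn (LM (ν a) (LM (br (ν c) (ν b)) (vac : Fk J))) =
      ∑ a, ∑ c, Ls (nu ν) (LM (br (ν c) (ν a)) (vac : Fk J)) := by
    rw [Finset.sum_comm]
    refine Finset.sum_congr rfl fun b _ => ?_
    rw [Finset.sum_comm]
    rfl
  rw [h5, h6]
  have h7 : ∑ a, (ρ - lam a) * (lam a * (ρ - lam a)) =
      ρ * (∑ a, lam a * (ρ - lam a)) - ∑ a, lam a * (lam a * (ρ - lam a)) := by
    rw [Finset.mul_sum, ← Finset.sum_sub_distrib]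
    exact Finset.sum_congr rfl fun a _ => by ring
  rw [h7]
  linarith

/-- **upper bound of the third trace** -/
theorem w3_le (h : Eis ν ρ) (o : Ort ν lam) :
    w (nu ν) 3 ≤ 2 * (ρ * (Fintype.card J - 4)) * w (nu ν) 2 -
      64 * (Fintype.card J - 6) * ρ * (∑ a, lam a * (ρ - lam a)) -
      256 * ∑ a, lam a * (lam a * (ρ - lam a)) := by
  have h1 := dsum h o
  have h2 : w (nu ν) 3 = 2 * (ρ * (Fintype.card J - 4)) * w (nu ν) 2 -
      2 * ∑ a, ∑ b, Dn (nu ν) (LM (ν b) (LM (ν a) (vac : Fk J))) := by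
    have e1 : ∀ a b, Ls (nu ν) (LM (ν b) (LM (ν a) (vac : Fk J))) =
        2 * (ρ * (Fintype.card J - 4)) * nn (LM (ν b) (LM (ν a) (vac : Fk J))) -
          2 * Dn (nu ν) (LM (ν b) (LM (ν a) (vac : Fk J))) := by
      intro a b
      have e2 : Dg 4 (LM (ν b) (LM (ν a) (vac : Fk J))) := Dg_LM (Dg_LM Dg_vac _) _
      have := h.exact e2
      rw [this]
      push_cast
      ring
    rw [w_three', w_two']
    simp only [e1, Finset.sum_sub_distrib, ← Finset.mul_sum]
    rfl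
  rw [h2]
  linarith

end Pool.Agent.TH594.HE
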