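import Mathlib

/-!
# A spectral inequality for fifteen numbers
-/

set_option autoImplicit false

namespace Pool.Agent.TH594.HE

open Finset

/-- the cubic polynomial -/
noncomputable def gg (t : ℝ) : ℝ := t * (1 - t) * (t - 53 / 500)

theorem gg_tan {t : ℝ} (h : t ≤ 88 / 100) : 1387 / 13500 * (t - 1 / 9) ≤ gg t := by
  have e : gg t - 1387 / 13500 * (t - 1 / 9) =
      184 / 364500 + (t - 1 / 9) ^ 2 * (1 + 53 / 500 - 2 / 9 - t) := by
    unfold gg; ring
  have : 0 ≤ (t - 1 / 9) ^ 2 * (1 + 53 / 500 - 2 / 9 - t) :=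
    mul_nonneg (sq_nonneg _) (by linarith)
  linarith

theorem gg_low {t : ℝ} (h0 : 0 ≤ t) (h1 : t ≤ 1) : -(53 / 500 * t) ≤ gg t := by
  have e : gg t + 53 / 500 * t = t * t * (1 - t + 53 / 500) := by
    unfold gg; ring
  have : 0 ≤ t * t * (1 - t + 53 / 500) := mul_nonneg (mul_nonneg h0 h0) (by linarith)
  linarith

theorem gg_top {t : ℝ} (h0 : 88 / 100 < t) (h1 : t ≤ 1) : 1 / 2 * (1 - t) ≤ gg t := by
  have e : gg t = (t * (t - 53 / 500)) * (1 - t) := by
    unfold gg; ring
  rw [e]
  refine mul_le_mul_of_nonneg_right ?_ (by linarith)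
  nlinarith

theorem spec {P : Type*} [Fintype P] (hP : Fintype.card P = 15) (t : P → ℝ) (C : P → P → ℝ)
    (h0 : ∀ i, 0 ≤ t i) (h1 : ∀ i, t i ≤ 1) (hs : ∑ i, t i = 3)
    (hC0 : ∀ i j, 0 ≤ C i j) (hC2 : ∀ i j, C i j ≤ 2) (hCd : ∀ i, C i i = 0)
    (hC8 : ∀ i, ∑ j, C i j = 8) (hId : ∀ i, 2 * (1 - t i) = ∑ j, t j * C i j) :
    0 ≤ ∑ i, gg (t i) := by
  classical
  set S : Finset P := univ.filter (fun i => 88 / 100 < t i) with hS
  have hmem : ∀ i, i ∈ S ↔ 88 / 100 < t i := fun i => by simp [hS]
  rcases Nat.lt_or_ge S.card 3 with hc | hc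
  · interval_cases hcard : S.card
    · -- no large value
      have hS0 : S = ∅ := Finset.card_eq_zero.mp hcard
      have h2 : ∀ i, t i ≤ 88 / 100 := by
        intro i
        by_contra hi
        have : i ∈ S := (hmem i).2 (not_le.mp hi)
        rw [hS0] at this
        simp at this
      have h3 : ∑ i, 1387 / 13500 * (t i - 1 / 9) ≤ ∑ i, gg (t i) :=
        Finset.sum_le_sum fun i _ => gg_tan (h2 i)
      rw [← Finset.mul_sum, Finset.sum_sub_distrib, hs, Finset.sum_const, Finset.card_univ, hP,
        nsmul_eq_mul] at h3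
      norm_num at h3
      linarith
    · -- one large value
      obtain ⟨i, hi⟩ := Finset.card_eq_one.mp hcard
      have hti : 88 / 100 < t i := (hmem i).1 (by rw [hi]; simp)
      have h2 : ∀ j, j ≠ i → t j ≤ 88 / 100 := by
        intro j hj
        by_contra hc2
        have : j ∈ S := (hmem j).2 (not_le.mp hc2)
        rw [hi, Finset.mem_singleton] at this
        exact hj this
      have h3 : ∑ j ∈ univ.erase i, 1387 / 13500 * (t j - 1 / 9) ≤ ∑ j ∈ univ.erase i, gg (t j) :=
        Finset.sum_le_sum fun j hj => gg_tan (h2 j (Finset.ne_of_mem_erase hj))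
      have h4 := Finset.add_sum_erase univ (fun j => gg (t j)) (Finset.mem_univ i)
      have h5 := Finset.add_sum_erase univ t (Finset.mem_univ i)
      rw [← Finset.mul_sum, Finset.sum_sub_distrib, Finset.sum_const,
        Finset.card_erase_of_mem (Finset.mem_univ i), Finset.card_univ, hP, nsmul_eq_mul] at h3
      have h6 := gg_top hti (h1 i)
      have h7 := h1 i
      norm_num at h3
      linarith
    · -- two large values
      obtain ⟨i, k, hik, hi⟩ := Finset.card_eq_two.mp hcard
      have hti : 88 / 100 < t i := (hmem i).1 (by rw [hi]; simp)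
      have htk : 88 / 100 < t k := (hmem k).1 (by rw [hi]; simp)
      have h2 : ∀ j, j ≠ i → j ≠ k → t j ≤ 88 / 100 := by
        intro j hj hj2
        by_contra hc2
        have : j ∈ S := (hmem j).2 (not_le.mp hc2)
        rw [hi, Finset.mem_insert, Finset.mem_singleton] at this
        tauto
      have hk : k ∈ univ.erase i := Finset.mem_erase.2 ⟨Ne.symm hik, Finset.mem_univ k⟩
      set R : Finset P := (univ.erase i).erase k with hR
      have split : ∀ F : P → ℝ, ∑ j, F j = F i + (F k + ∑ j ∈ R, F j) := by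
        intro F
        rw [← Finset.add_sum_erase univ F (Finset.mem_univ i), ← Finset.add_sum_erase _ F hk]
      have h3 : ∑ j ∈ R, (1387 / 13500 * ((1 - C i j / 2) * (t j - 1 / 9)) -
          53 / 500 * (C i j / 2 * t j)) ≤ ∑ j ∈ R, gg (t j) := by
        refine Finset.sum_le_sum fun j hj => ?_
        have hjk : j ≠ k := Finset.ne_of_mem_erase hj
        have hji : j ≠ i := Finset.ne_of_mem_erase (Finset.mem_of_mem_erase hj)
        have e1 := gg_tan (h2 j hji hjk)
        have e2 := gg_low (h0 j) (h1 j)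
        have e3 := hC0 i j
        have e4 := hC2 i j
        have e5 : (1 - C i j / 2) * (1387 / 13500 * (t j - 1 / 9)) ≤ (1 - C i j / 2) * gg (t j) :=
          mul_le_mul_of_nonneg_left e1 (by linarith)
        have e6 : (C i j / 2) * (-(53 / 500 * t j)) ≤ (C i j / 2) * gg (t j) :=
          mul_le_mul_of_nonneg_left e2 (by linarith)
        linarith
      have s1 := split (fun j => C i j / 2 * t j)
      have s2 := split (fun j => (1 - C i j / 2) * (t j - 1 / 9))
      have s3 := split (fun j => gg (t j))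
      have v1 : ∑ j, C i j / 2 * t j = 1 - t i := by
        have := hId i
        have e : ∑ j, C i j / 2 * t j = 1 / 2 * ∑ j, t j * C i j := by
          rw [Finset.mul_sum]
          exact Finset.sum_congr rfl fun j _ => by ring
        rw [e, ← this]; ring
      have v2 : ∑ j, (1 - C i j / 2) * (t j - 1 / 9) = 3 - (1 - t i) - 11 / 9 := by
        have e : ∀ j, (1 - C i j / 2) * (t j - 1 / 9) =
            t j - C i j / 2 * t j - 1 / 9 + 1 / 18 * C i j := fun j => by ring
        simp only [e, Finset.sum_add_distrib, Finset.sum_sub_distrib, ← Finset.mul_sum, hC8, hs]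
        rw [v1, Finset.sum_const, Finset.card_univ, hP, nsmul_eq_mul]
        norm_num
        ring
      simp only [hCd] at s1 s2
      rw [v1] at s1
      rw [v2] at s2
      rw [Finset.sum_sub_distrib, ← Finset.mul_sum, ← Finset.mul_sum] at h3
      have e3 := hC0 i k
      have e4 := hC2 i k
      have e5 : 0 ≤ C i k / 2 * t k := mul_nonneg (by linarith) (h0 k)
      have e6 : (1 - C i k / 2) * (t k - 1 / 9) ≤ 1 * (t k - 1 / 9) :=
        mul_le_mul_of_nonneg_right (by linarith) (by linarith)
      have e7 := gg_top hti (h1 i)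
      have e8 := gg_top htk (h1 k)
      have e9 := h1 i
      have e10 := h1 k
      rw [s3]
      set X := ∑ j ∈ R, C i j / 2 * t j
      set Y := ∑ j ∈ R, (1 - C i j / 2) * (t j - 1 / 9)
      have hX : X ≤ 1 - t i := by linarith
      have hY : 0 ≤ Y := by linarith
      linarith
  · -- three large values
    obtain ⟨T, hTS, hT⟩ := Finset.exists_subset_card_eq hc
    obtain ⟨i, k, l, hik, hil, hkl, hTe⟩ := Finset.card_eq_three.mp hT
    have hti : 88 / 100 < t i := (hmem i).1 (hTS (by rw [hTe]; simp))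
    have htk : 88 / 100 < t k := (hmem k).1 (hTS (by rw [hTe]; simp))
    have htl : 88 / 100 < t l := (hmem l).1 (hTS (by rw [hTe]; simp))
    have hk : k ∈ univ.erase i := Finset.mem_erase.2 ⟨Ne.symm hik, Finset.mem_univ k⟩
    have hl : l ∈ (univ.erase i).erase k :=
      Finset.mem_erase.2 ⟨Ne.symm hkl, Finset.mem_erase.2 ⟨Ne.symm hil, Finset.mem_univ l⟩⟩
    set R : Finset P := ((univ.erase i).erase k).erase l with hR
    have split : ∀ F : P → ℝ, ∑ j, F j = F i + (F k + (F l + ∑ j ∈ R, F j)) := by
      intro F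
      rw [← Finset.add_sum_erase univ F (Finset.mem_univ i), ← Finset.add_sum_erase _ F hk,
        ← Finset.add_sum_erase _ F hl]
    have s1 := split t
    have s2 := split (fun j => gg (t j))
    have h3 : ∑ j ∈ R, -(53 / 500 * t j) ≤ ∑ j ∈ R, gg (t j) :=
      Finset.sum_le_sum fun j _ => gg_low (h0 j) (h1 j)
    rw [Finset.sum_neg_distrib, ← Finset.mul_sum] at h3
    have e1 := gg_top hti (h1 i)
    have e2 := gg_top htk (h1 k)
    have e3 := gg_top htl (h1 l)
    have e4 := h1 i
    have e5 := h1 k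
    have e6 := h1 l
    linarith

end Pool.Agent.TH594.HE
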