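import Pool.Agent.TH594.HE.Dec
import Pool.Agent.TH594.HE.Spec

/-!
# The eigenfamily of an Einstein curvature operator
-/

set_option autoImplicit false

namespace Pool.Agent.TH594.HE

open Finset Pool.Agent.TH594.HP

variable {J : Type*} [Fintype J] [DecidableEq J]

/-- the two families attached to a nonnegative Einstein operator -/
structure Fam (h : Pr J → Matrix J J ℝ) (lam : Pr J → ℝ) (ρ : ℝ) : Prop where
  eh : Eis h ((Fintype.card J : ℝ) - 1)
  oh : Ort h (fun _ => 1)
  pos : ∀ p, 0 ≤ lam p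
  ev : Eis (fun p => Real.sqrt (lam p) • h p) ρ
  ov : Ort (fun p => Real.sqrt (lam p) • h p) lam

theorem exists_fam {K : Type*} [Fintype K] (μ : K → J → J → ℝ) (hB : BiN μ) {ρ : ℝ}
    (hr : ∀ i j, rc μ i j = if i = j then ρ else 0) :
    ∃ (h : Pr J → Matrix J J ℝ) (lam : Pr J → ℝ), Fam h lam ρ ∧
      ∀ i j k l, EE (nu fun p => Real.sqrt (lam p) • h p) i j k l = EE μ i j k l := by
  obtain ⟨h, lam, hsk, hpos, horth, hcomp, hEE⟩ := decomp μ hB.anti
  have e1 : ∀ i j k l, EE (nu h) i j k l =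
        (if i = k then 1 else 0) * (if j = l then 1 else 0) -
          (if i = l then 1 else 0) * (if j = k then 1 else 0) := hcomp
  have e2 : ∀ i j k l, EE (nu fun p => Real.sqrt (lam p) • h p) i j k l = EE μ i j k l := by
    intro i j k l
    rw [hEE]
    unfold EE nu
    refine Finset.sum_congr rfl fun p _ => ?_
    simp only [Matrix.smul_apply, smul_eq_mul]
    have := Real.mul_self_sqrt (hpos p)
    linear_combination (h p i j * h p k l) * this
  refine ⟨h, lam, ⟨⟨⟨fun a i j => hsk a i j, ?_⟩, ?_⟩, ⟨fun a => ?_, fun a b hab => ?_⟩, hpos,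
    ⟨⟨?_, ?_⟩, ?_⟩, ⟨fun a => ?_, fun a b hab => ?_⟩⟩, e2⟩
  · intro i j k l
    rw [e1, e1, e1]
    simp only [eq_comm (a := k) (b := j), eq_comm (a := k) (b := i), eq_comm (a := j) (b := i)]
    ring
  · intro j l
    unfold rc
    simp only [e1]
    simp only [if_true, one_mul, Finset.sum_sub_distrib, Finset.sum_const, Finset.card_univ,
      nsmul_eq_mul]
    have : ∑ i, (if i = l then (1 : ℝ) else 0) * (if j = i then 1 else 0) =
        if j = l then 1 else 0 := by
      rw [Finset.sum_eq_single l]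
      · simp
      · intro i _ hi
        rw [if_neg hi, zero_mul]
      · simp
    rw [this]
    split_ifs <;> ring
  · rw [horth, if_pos rfl]
  · rw [horth, if_neg hab]
  · intro a i j
    unfold nu
    simp only [Matrix.smul_apply, smul_eq_mul]
    rw [hsk a i j]; ring
  · intro i j k l
    rw [e2, e2, e2]
    exact hB.bia i j k l
  · intro i j
    rw [← hr]
    unfold rc
    exact Finset.sum_congr rfl fun k _ => e2 _ _ _ _
  · rw [sp_smul, sp_smul', horth, if_pos rfl, mul_one]
    exact Real.mul_self_sqrt (hpos a)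
  · rw [sp_smul, sp_smul', horth, if_neg hab, mul_zero, mul_zero]

section

variable {h : Pr J → Matrix J J ℝ} {lam : Pr J → ℝ} {ρ : ℝ}

theorem Fam.rho (F : Fam h lam ρ) [Nonempty J] : 0 ≤ ρ := by
  have h1 := lam_sum F.ev F.ov
  have h2 : 0 ≤ ∑ a, lam a := Finset.sum_nonneg fun a _ => F.pos a
  have h3 : (0 : ℝ) < Fintype.card J := by exact_mod_cast Fintype.card_pos
  rw [h1] at h2
  by_contra hc
  have h4 : ρ < 0 := not_le.mp hc
  nlinarith [mul_neg_of_pos_of_neg h3 h4]

theorem Fam.le (F : Fam h lam ρ) [Nonempty J] (a : Pr J) : lam a ≤ ρ := by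
  have h1 := lam_le F.ev F.ov a
  rcases eq_or_lt_of_le (F.pos a) with h0 | h0
  · rw [← h0]; exact F.rho
  · nlinarith

theorem Fam.card (F : Fam h lam ρ) :
    (Fintype.card (Pr J) : ℝ) = (Fintype.card J : ℝ) * (Fintype.card J - 1) / 2 := by
  have h1 := lam_sum F.eh F.oh
  simpa using h1

/-- the bracket numbers -/
noncomputable def CC (h : Pr J → Matrix J J ℝ) (i j : Pr J) : ℝ := sp (br (h i) (h j)) (br (h i) (h j))

theorem CC_nonneg (h : Pr J → Matrix J J ℝ) (i j : Pr J) : 0 ≤ CC h i j := sp_self_nonneg _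

theorem CC_self (h : Pr J → Matrix J J ℝ) (i : Pr J) : CC h i i = 0 := by
  unfold CC br
  rw [sub_self, sp_zero]

theorem Fam.CCsum (F : Fam h lam ρ) (i : Pr J) :
    ∑ j, CC h i j = 2 * ((Fintype.card J : ℝ) - 2) := by
  have h1 := rowsum F.eh F.oh i
  unfold CC
  rw [h1]; ring

theorem sp_sm2 (t : ℝ) (A : Matrix J J ℝ) : sp (t • A) (t • A) = t * t * sp A A := by
  rw [sp_smul, sp_smul']; ring

theorem Fam.CClam (F : Fam h lam ρ) (i : Pr J) :
    2 * (ρ - lam i) = ∑ j, lam j * CC h i j := by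
  have h1 := F.ev.brsum (F.eh.sk i)
  have h2 : ∀ b, sp (br (h i) (Real.sqrt (lam b) • h b)) (br (h i) (Real.sqrt (lam b) • h b)) =
      lam b * CC h i b := by
    intro b
    have e1 : br (h i) (Real.sqrt (lam b) • h b) = Real.sqrt (lam b) • br (h i) (h b) := by
      unfold br
      rw [Matrix.mul_smul, Matrix.smul_mul, smul_sub]
    rw [e1, sp_sm2, Real.mul_self_sqrt (F.pos b)]
    rfl
  have h3 : ∑ b, sp (Real.sqrt (lam b) • h b) (h i) ^ 2 = lam i := by
    rw [Finset.sum_eq_single i]
    · rw [sp_smul', F.oh.1, mul_one, pow_two, Real.mul_self_sqrt (F.pos i)]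
    · intro b _ hb
      rw [sp_smul', F.oh.2 b i hb, mul_zero]
      norm_num
    · simp
  simp only [h2] at h1
  rw [h1, h3, F.oh.1]; ring

theorem Fam.CC_le (F : Fam h lam ρ) (i j : Pr J) : CC h i j ≤ 2 := by
  by_cases hij : i = j
  · subst hij
    rw [CC_self]; norm_num
  set A := h i with hA
  set B := h j with hB
  have sA : Sk A := F.eh.sk i
  have sB : Sk B := F.eh.sk j
  have h1 : 0 ≤ 16 * sp A B ^ 2 + 16 * (sp A A * sp B B) + 32 * sp B (A * A * B) := by
    rw [← nn_four sA sB]
    exact nn_nonneg _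
  rw [F.oh.2 i j hij, F.oh.1, F.oh.1, sp_tr sB] at h1
  have t1 : Matrix.trace (B * (A * A * B)) = Matrix.trace (A * A * B * B) := by
    rw [Matrix.trace_mul_comm]
  rw [t1] at h1
  have h2 : CC h i j = Matrix.trace (A * A * B * B) - Matrix.trace (A * B * A * B) := by
    unfold CC
    rw [sp_tr (br_sk sA sB)]
    unfold br
    have e1 : (A * B - B * A) * (A * B - B * A) =
        A * B * A * B - A * (B * B * A) - B * A * A * B + B * A * B * A := by
      noncomm_ring
    rw [e1, Matrix.trace_add, Matrix.trace_sub, Matrix.trace_sub]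
    have t2 : Matrix.trace (A * (B * B * A)) = Matrix.trace (A * A * B * B) := by
      rw [Matrix.trace_mul_comm, Matrix.mul_assoc, Matrix.trace_mul_comm]
      simp only [Matrix.mul_assoc]
    have t3 : Matrix.trace (B * A * A * B) = Matrix.trace (A * A * B * B) := by
      rw [Matrix.mul_assoc, Matrix.mul_assoc, Matrix.trace_mul_comm]
      simp only [Matrix.mul_assoc]
    have t4 : Matrix.trace (B * A * B * A) = Matrix.trace (A * B * A * B) := by
      rw [Matrix.trace_mul_comm]
      simp only [Matrix.mul_assoc]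
    rw [t2, t3, t4]; ring
  have h3 : 0 ≤ Matrix.trace ((A * B + B * A) * (A * B + B * A)) := by
    unfold Matrix.trace
    refine Finset.sum_nonneg fun k _ => ?_
    rw [Matrix.diag_apply, Matrix.mul_apply]
    refine Finset.sum_nonneg fun l _ => ?_
    have : (A * B + B * A) l k = (A * B + B * A) k l := by
      simp only [Matrix.add_apply, Matrix.mul_apply]
      have s1 : ∑ r, A l r * B r k = ∑ r, B k r * A r l :=
        Finset.sum_congr rfl fun r _ => by rw [sA r l, sB k r]; ring
      have s2 : ∑ r, B l r * A r k = ∑ r, A k r * B r l :=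
        Finset.sum_congr rfl fun r _ => by rw [sB r l, sA k r]; ring
      rw [s1, s2]; ring
    rw [this]
    exact mul_self_nonneg _
  have h4 : Matrix.trace ((A * B + B * A) * (A * B + B * A)) =
      2 * Matrix.trace (A * A * B * B) + 2 * Matrix.trace (A * B * A * B) := by
    have e1 : (A * B + B * A) * (A * B + B * A) =
        A * B * A * B + A * (B * B * A) + B * A * A * B + B * A * B * A := by
      noncomm_ring
    rw [e1, Matrix.trace_add, Matrix.trace_add, Matrix.trace_add]
    have t2 : Matrix.trace (A * (B * B * A)) = Matrix.trace (A * A * B * B) := by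
      rw [Matrix.trace_mul_comm, Matrix.mul_assoc, Matrix.trace_mul_comm]
      simp only [Matrix.mul_assoc]
    have t3 : Matrix.trace (B * A * A * B) = Matrix.trace (A * A * B * B) := by
      rw [Matrix.mul_assoc, Matrix.mul_assoc, Matrix.trace_mul_comm]
      simp only [Matrix.mul_assoc]
    have t4 : Matrix.trace (B * A * B * A) = Matrix.trace (A * B * A * B) := by
      rw [Matrix.trace_mul_comm]
      simp only [Matrix.mul_assoc]
    rw [t2, t3, t4]; ring
  rw [h4] at h3
  rw [h2]
  linarith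

/-- the numbers of the estimate -/
noncomputable def ee (lam : Pr J → ℝ) (ρ : ℝ) : ℝ := ∑ a, lam a * (ρ - lam a)

/-- the numbers of the estimate -/
noncomputable def ff (lam : Pr J → ℝ) (ρ : ℝ) : ℝ := ∑ a, lam a * (lam a * (ρ - lam a))

theorem Fam.ee_nonneg (F : Fam h lam ρ) [Nonempty J] : 0 ≤ ee lam ρ :=
  Finset.sum_nonneg fun a _ => mul_nonneg (F.pos a) (by linarith [F.le a])

theorem Fam.ff_nonneg (F : Fam h lam ρ) [Nonempty J] : 0 ≤ ff lam ρ :=
  Finset.sum_nonneg fun a _ =>
    mul_nonneg (F.pos a) (mul_nonneg (F.pos a) (by linarith [F.le a]))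

theorem Fam.ee_eq (F : Fam h lam ρ) :
    ee lam ρ = (Fintype.card J : ℝ) * ρ ^ 2 / 2 - ∑ a, lam a ^ 2 := by
  have h1 := lam_sum F.ev F.ov
  unfold ee
  have h2 : ∀ a, lam a * (ρ - lam a) = ρ * lam a - lam a ^ 2 := fun a => by ring
  simp only [h2, Finset.sum_sub_distrib, ← Finset.mul_sum]
  rw [h1]; ring

/-- Cauchy-Schwarz -/
theorem Fam.ee_le (F : Fam h lam ρ) :
    ee lam ρ * ((Fintype.card J : ℝ) - 1) ≤
      (Fintype.card J : ℝ) * ((Fintype.card J : ℝ) - 2) / 2 * ρ ^ 2 ∨ (Fintype.card J : ℝ) ≤ 0 := by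
  rcases le_or_gt (Fintype.card J : ℝ) 0 with h0 | h0
  · exact Or.inr h0
  left
  have h1 := lam_sum F.ev F.ov
  have h2 : (∑ a, lam a) ^ 2 ≤ (Fintype.card (Pr J) : ℝ) * ∑ a, lam a ^ 2 := by
    have := sq_sum_le_card_mul_sum_sq (s := (Finset.univ : Finset (Pr J))) (f := lam)
    simpa using this
  rw [F.card, h1] at h2
  rw [F.ee_eq]
  set N := (Fintype.card J : ℝ)
  set S := ∑ a, lam a ^ 2
  have h3 : N * (N * ρ ^ 2 / 2) ≤ N * ((N - 1) * S) := by nlinarith
  have h4 := le_of_mul_le_mul_left h3 h0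
  nlinarith

/-- the bound of the cubic sum in dimension six -/
theorem Fam.ff_ge (F : Fam h lam ρ) (h6 : Fintype.card J = 6) :
    53 / 500 * ρ * ee lam ρ ≤ ff lam ρ := by
  haveI : Nonempty J := Fintype.card_pos_iff.1 (by rw [h6]; norm_num)
  rcases eq_or_lt_of_le F.rho with h0 | h0
  · rw [← h0]
    have := F.ff_nonneg
    rw [← h0] at this
    linarith
  have hc : Fintype.card (Pr J) = 15 := by
    have := F.card
    rw [h6] at this
    norm_num at this
    exact_mod_cast this
  have hs := spec hc (fun i => lam i / ρ) (CC h) (fun i => div_nonneg (F.pos i) h0.le)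
    (fun i => (div_le_one h0).2 (F.le i)) (by
      rw [← Finset.sum_div, lam_sum F.ev F.ov, h6]
      field_simp
      norm_num) (CC_nonneg h) (F.CC_le) (CC_self h) (fun i => by
      rw [F.CCsum, h6]; norm_num) (fun i => by
      have := F.CClam i
      have e : ∑ j, lam j / ρ * CC h i j = (∑ j, lam j * CC h i j) / ρ := by
        rw [Finset.sum_div]
        exact Finset.sum_congr rfl fun j _ => by ring
      rw [e, ← this]
      field_simp)
  have e1 : ρ ^ 3 * ∑ i, gg (lam i / ρ) = ff lam ρ - 53 / 500 * ρ * ee lam ρ := by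
    unfold ff ee gg
    rw [Finset.mul_sum, Finset.mul_sum, ← Finset.sum_sub_distrib]
    refine Finset.sum_congr rfl fun i _ => ?_
    field_simp
  have e2 : 0 ≤ ρ ^ 3 * ∑ i, gg (lam i / ρ) := mul_nonneg (by positivity) hs
  linarith

end

end Pool.Agent.TH594.HE
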