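import Pool.Agent.TH594.HP.Six

/-!
# Scalar products of exterior products of two-forms, and derivations
-/

set_option autoImplicit false

namespace Pool.Agent.TH594.HE

open Finset Pool.Agent.TH594.HP

variable {J : Type*} [Fintype J] [DecidableEq J]

/-- skew matrices -/
def Sk (A : Matrix J J ℝ) : Prop := ∀ i j, A j i = - A i j

/-- scalar product -/
noncomputable def sp (A B : Matrix J J ℝ) : ℝ := 1 / 2 * ∑ i, ∑ j, A i j * B i j

/-- derivation -/
noncomputable def Dv (M : Matrix J J ℝ) (f : Fk J) : Fk J := ∑ i, ∑ j, M i j • cr i (an j f)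

/-- the adjoint of `L A` -/
noncomputable def Lm (A : Matrix J J ℝ) (f : Fk J) : Fk J := ∑ i, ∑ j, A i j • an j (an i f)

/-- exterior product with (twice) the form of a matrix -/
noncomputable def LM (A : Matrix J J ℝ) : Fk J →ₗ[ℝ] Fk J := L A

theorem LM_apply (A : Matrix J J ℝ) (f : Fk J) : LM A f = ∑ i, ∑ j, A i j • cr i (cr j f) :=
  HP.L_apply A f

theorem an_LM {B : Matrix J J ℝ} (hB : Sk B) (i : J) (f : Fk J) :
    an i (LM B f) = LM B (an i f) + (2 : ℝ) • cv (B i) f := an_L hB i f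

theorem LM_cv (B : Matrix J J ℝ) (x : J → ℝ) (f : Fk J) : LM B (cv x f) = cv x (LM B f) :=
  L_cv B x f

theorem LM_comm (A B : Matrix J J ℝ) (f : Fk J) : LM A (LM B f) = LM B (LM A f) := L_comm A B f

omit [Fintype J] [DecidableEq J] in
theorem Sk.diag {A : Matrix J J ℝ} (h : Sk A) (i : J) : A i i = 0 := by
  have := h i i
  linarith

omit [DecidableEq J] in
theorem Sk.transpose {A : Matrix J J ℝ} (h : Sk A) : A.transpose = -A := by
  ext i j
  rw [Matrix.transpose_apply, Matrix.neg_apply, h]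

omit [DecidableEq J] in
theorem Sk.br {A B : Matrix J J ℝ} (hA : Sk A) (hB : Sk B) : Sk (A * B - B * A) := by
  intro i j
  simp only [Matrix.sub_apply, Matrix.mul_apply]
  have h1 : ∑ k, A j k * B k i = ∑ k, B i k * A k j :=
    Finset.sum_congr rfl fun k _ => by rw [hA k j, hB i k]; ring
  have h2 : ∑ k, B j k * A k i = ∑ k, A i k * B k j :=
    Finset.sum_congr rfl fun k _ => by rw [hB k j, hA i k]; ring
  rw [h1, h2]; ring

omit [DecidableEq J] in
theorem sp_comm (A B : Matrix J J ℝ) : sp A B = sp B A := by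
  unfold sp
  congr 1
  exact Finset.sum_congr rfl fun i _ => Finset.sum_congr rfl fun j _ => mul_comm _ _

omit [DecidableEq J] in
theorem sp_self_nonneg (A : Matrix J J ℝ) : 0 ≤ sp A A := by
  unfold sp
  have : 0 ≤ ∑ i, ∑ j, A i j * A i j :=
    Finset.sum_nonneg fun i _ => Finset.sum_nonneg fun j _ => mul_self_nonneg _
  linarith

omit [DecidableEq J] in
theorem sp_add (A B C : Matrix J J ℝ) : sp A (B + C) = sp A B + sp A C := by
  unfold sp
  simp only [Matrix.add_apply, mul_add, Finset.sum_add_distrib]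

omit [DecidableEq J] in
theorem sp_sub (A B C : Matrix J J ℝ) : sp A (B - C) = sp A B - sp A C := by
  unfold sp
  simp only [Matrix.sub_apply, mul_sub, Finset.sum_sub_distrib]

omit [DecidableEq J] in
theorem sp_smul (t : ℝ) (A B : Matrix J J ℝ) : sp A (t • B) = t * sp A B := by
  unfold sp
  simp only [Matrix.smul_apply, smul_eq_mul, Finset.mul_sum]
  exact Finset.sum_congr rfl fun i _ => Finset.sum_congr rfl fun j _ => by ring

omit [DecidableEq J] in
theorem sp_smul' (t : ℝ) (A B : Matrix J J ℝ) : sp (t • A) B = t * sp A B := by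
  rw [sp_comm, sp_smul, sp_comm]

omit [DecidableEq J] in
theorem sp_zero (A : Matrix J J ℝ) : sp A 0 = 0 := by
  unfold sp
  simp

omit [DecidableEq J] in
theorem sp_sum {K : Type*} (s : Finset K) (A : Matrix J J ℝ) (B : K → Matrix J J ℝ) :
    sp A (∑ a ∈ s, B a) = ∑ a ∈ s, sp A (B a) := by
  classical
  induction s using Finset.induction_on with
  | empty => simp [sp_zero]
  | insert a s ha ih => rw [Finset.sum_insert ha, Finset.sum_insert ha, sp_add, ih]

omit [DecidableEq J] in
/-- the scalar product as a trace -/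
theorem sp_tr {A : Matrix J J ℝ} (hA : Sk A) (B : Matrix J J ℝ) :
    sp A B = -(1 / 2) * Matrix.trace (A * B) := by
  unfold sp Matrix.trace
  simp only [Matrix.diag_apply, Matrix.mul_apply]
  rw [neg_mul, ← mul_neg, ← Finset.sum_neg_distrib]
  congr 1
  rw [Finset.sum_comm]
  refine Finset.sum_congr rfl fun j _ => ?_
  rw [← Finset.sum_neg_distrib]
  refine Finset.sum_congr rfl fun i _ => ?_
  rw [hA i j]; ring

omit [DecidableEq J] in
/-- scalar product of a skew matrix with a product -/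
theorem sp_half {A B C : Matrix J J ℝ} (hA : Sk A) (hB : Sk B) (hC : Sk C) :
    sp A (B * C) = 1 / 2 * sp A (B * C - C * B) := by
  have h1 : sp A (C * B) = - sp A (B * C) := by
    unfold sp
    rw [Finset.sum_comm, ← mul_neg, ← Finset.sum_neg_distrib]
    congr 1
    refine Finset.sum_congr rfl fun i _ => ?_
    rw [← Finset.sum_neg_distrib]
    refine Finset.sum_congr rfl fun j _ => ?_
    have h2 : (C * B) j i = (B * C) i j := by
      simp only [Matrix.mul_apply]
      exact Finset.sum_congr rfl fun k _ => by rw [hC k j, hB i k]; ring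
    rw [h2, hA i j]; ring
  rw [sp_sub, h1]; ring

theorem Lm_adj (A : Matrix J J ℝ) (f g : Fk J) : ip (LM A f) g = ip f (Lm A g) := by
  rw [LM_apply, Lm, ip_sum_left, ip_sum_right]
  refine Finset.sum_congr rfl fun i _ => ?_
  rw [ip_sum_left, ip_sum_right]
  refine Finset.sum_congr rfl fun j _ => ?_
  rw [ip_smul_left, ip_smul_right, adj, adj]

theorem Lm_vac (A : Matrix J J ℝ) : Lm A (vac : Fk J) = 0 := by
  simp [Lm, an_vac]

theorem Dv_vac (A : Matrix J J ℝ) : Dv A (vac : Fk J) = 0 := by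
  simp [Dv, an_vac]

theorem an_cv (i : J) (x : J → ℝ) (f : Fk J) : an i (cv x f) = x i • f - cv x (an i f) := by
  rw [← av_single i, av_cv, av_single]
  congr 2
  unfold dt
  rw [Finset.sum_eq_single i]
  · rw [Pi.single_eq_same, one_mul]
  · intro j _ hj
    rw [Pi.single_eq_of_ne hj, zero_mul]
  · simp

theorem Dv_mul {A B : Matrix J J ℝ} (hB : Sk B) (f : Fk J) :
    Dv (B * A) f = - ∑ i, ∑ j, A i j • cv (B i) (an j f) := by
  unfold Dv
  simp only [cv_apply, Matrix.mul_apply, Finset.sum_smul, Finset.smul_sum, smul_smul,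
    ← Finset.sum_neg_distrib, ← neg_smul]
  have e1 : ∀ G : J → J → J → Fk J, ∑ k, ∑ j, ∑ i, G k j i = ∑ i, ∑ j, ∑ k, G k j i := by
    intro G
    rw [Finset.sum_comm]
    conv_rhs => rw [Finset.sum_comm]
    exact Finset.sum_congr rfl fun j _ => Finset.sum_comm
  rw [e1]
  refine Finset.sum_congr rfl fun i _ => Finset.sum_congr rfl fun j _ =>
    Finset.sum_congr rfl fun k _ => ?_
  rw [hB i k]
  congr 1
  ring

theorem Lm_L {A B : Matrix J J ℝ} (hA : Sk A) (hB : Sk B) (f : Fk J) :
    Lm A (LM B f) = LM B (Lm A f) + (4 * sp A B) • f + (4 : ℝ) • Dv (B * A) f := by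
  have h1 : ∀ i j, an j (an i (LM B f)) = LM B (an j (an i f)) + (2 : ℝ) • cv (B j) (an i f) +
      (2 : ℝ) • (B i j • f - cv (B i) (an j f)) := by
    intro i j
    rw [an_LM hB, map_add, map_smul, an_LM hB, an_cv]
  rw [Dv_mul hB]
  have h2 : Lm A (LM B f) = ∑ i, ∑ j, (A i j • LM B (an j (an i f)) +
      (A i j • (2 : ℝ) • cv (B j) (an i f) + (A i j • (2 : ℝ) • (B i j • f) -
        A i j • (2 : ℝ) • cv (B i) (an j f)))) := by
    unfold Lm
    refine Finset.sum_congr rfl fun i _ => Finset.sum_congr rfl fun j _ => ?_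
    rw [h1, smul_sub]
    simp only [smul_add, smul_sub]
    abel
  have h3 : LM B (Lm A f) = ∑ i, ∑ j, A i j • LM B (an j (an i f)) := by
    unfold Lm
    simp only [map_sum, map_smul]
  have h4 : ∑ i, ∑ j, A i j • (2 : ℝ) • cv (B j) (an i f) =
      - ∑ i, ∑ j, A i j • (2 : ℝ) • cv (B i) (an j f) := by
    rw [Finset.sum_comm, ← Finset.sum_neg_distrib]
    refine Finset.sum_congr rfl fun i _ => ?_
    rw [← Finset.sum_neg_distrib]
    refine Finset.sum_congr rfl fun j _ => ?_
    rw [hA i j, neg_smul]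
  have h5 : (4 * sp A B) • f = ∑ i, ∑ j, A i j • (2 : ℝ) • (B i j • f) := by
    unfold sp
    simp only [smul_smul, ← Finset.sum_smul]
    congr 1
    rw [← mul_assoc, Finset.mul_sum]
    refine Finset.sum_congr rfl fun i _ => ?_
    rw [Finset.mul_sum]
    refine Finset.sum_congr rfl fun j _ => ?_
    ring
  rw [h2]
  simp only [Finset.sum_add_distrib, Finset.sum_sub_distrib]
  rw [h3, h4, h5]
  have h6 : ∑ i, ∑ j, A i j • (2 : ℝ) • cv (B i) (an j f) =
      (2 : ℝ) • ∑ i, ∑ j, A i j • cv (B i) (an j f) := by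
    simp only [Finset.smul_sum]
    exact Finset.sum_congr rfl fun i _ => Finset.sum_congr rfl fun j _ => smul_comm _ _ _
  rw [h6, smul_neg]
  have h7 : (4 : ℝ) • ∑ i, ∑ j, A i j • cv (B i) (an j f) =
      (2 : ℝ) • (∑ i, ∑ j, A i j • cv (B i) (an j f)) +
        (2 : ℝ) • ∑ i, ∑ j, A i j • cv (B i) (an j f) := by
    rw [← add_smul]; norm_num
  rw [h7]
  abel

theorem cr_L (A : Matrix J J ℝ) (i : J) (f : Fk J) : cr i (LM A f) = LM A (cr i f) := by
  rw [← cv_single' i, ← LM_cv, cv_single']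

/-- a derivation and an exterior product -/
theorem Dv_L {M B : Matrix J J ℝ} (hB : Sk B) (f : Fk J) :
    Dv M (LM B f) = LM B (Dv M f) + (2 : ℝ) • LM (M * B) f := by
  have h1 : Dv M (LM B f) = ∑ i, ∑ j, (M i j • LM B (cr i (an j f)) +
      (2 : ℝ) • (M i j • cr i (cv (B j) f))) := by
    unfold Dv
    refine Finset.sum_congr rfl fun i _ => Finset.sum_congr rfl fun j _ => ?_
    rw [an_LM hB, map_add, map_smul, cr_L, smul_add, smul_comm (M i j)]
  have h2 : LM B (Dv M f) = ∑ i, ∑ j, M i j • LM B (cr i (an j f)) := by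
    unfold Dv
    simp only [map_sum, map_smul]
  have h3 : LM (M * B) f = ∑ i, ∑ j, M i j • cr i (cv (B j) f) := by
    rw [LM_apply]
    refine Finset.sum_congr rfl fun i _ => ?_
    simp only [Matrix.mul_apply, Finset.sum_smul, cv_apply, map_sum, map_smul, Finset.smul_sum,
      smul_smul]
    exact Finset.sum_comm
  rw [h1, h2, h3]
  simp only [Finset.sum_add_distrib, ← Finset.smul_sum]

theorem L_transpose (A : Matrix J J ℝ) (f : Fk J) : LM A.transpose f = - LM A f := by
  rw [LM_apply, LM_apply, Finset.sum_comm, ← Finset.sum_neg_distrib]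
  refine Finset.sum_congr rfl fun i _ => ?_
  rw [← Finset.sum_neg_distrib]
  refine Finset.sum_congr rfl fun j _ => ?_
  rw [Matrix.transpose_apply, cr_cr, smul_neg]

theorem L_add (A B : Matrix J J ℝ) (f : Fk J) : LM (A + B) f = LM A f + LM B f := by
  simp only [LM_apply, Matrix.add_apply, add_smul, Finset.sum_add_distrib]

theorem L_sub (A B : Matrix J J ℝ) (f : Fk J) : LM (A - B) f = LM A f - LM B f := by
  simp only [LM_apply, Matrix.sub_apply, sub_smul, Finset.sum_sub_distrib]

theorem L_smul (t : ℝ) (A : Matrix J J ℝ) (f : Fk J) : LM (t • A) f = t • LM A f := by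
  simp only [LM_apply, Matrix.smul_apply, smul_eq_mul, Finset.smul_sum, smul_smul]

theorem L_zero (f : Fk J) : LM (0 : Matrix J J ℝ) f = 0 := by
  simp [LM_apply]

theorem L_br {A B : Matrix J J ℝ} (hA : Sk A) (hB : Sk B) (f : Fk J) :
    LM (A * B - B * A) f = (2 : ℝ) • LM (A * B) f := by
  have h1 : B * A = (A * B).transpose := by
    rw [Matrix.transpose_mul, hA.transpose, hB.transpose, neg_mul_neg]
  rw [L_sub, h1, L_transpose, sub_neg_eq_add, two_smul]

/-- scalar product of two-forms -/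
theorem ip_two {D : Matrix J J ℝ} (hD : Sk D) (E : Matrix J J ℝ) :
    ip (LM D (vac : Fk J)) (LM E vac) = 4 * sp D E := by
  have h1 : ∀ i j, ip (LM D (vac : Fk J)) (cr i (cr j vac)) = 2 * D i j := by
    intro i j
    rw [adj', adj', an_LM hD, an_vac, map_zero, zero_add, map_smul, an_cv, an_vac, map_zero,
      sub_zero, ip_smul_left, ip_smul_left]
    have : ip (vac : Fk J) vac = 1 := nn_vac
    rw [this]; ring
  rw [LM_apply E, ip_sum_right]
  unfold sp
  rw [← mul_assoc, Finset.mul_sum]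
  refine Finset.sum_congr rfl fun i _ => ?_
  rw [ip_sum_right, Finset.mul_sum]
  refine Finset.sum_congr rfl fun j _ => ?_
  rw [ip_smul_right, h1]; ring

theorem nn_two {D : Matrix J J ℝ} (hD : Sk D) : nn (LM D (vac : Fk J)) = 4 * sp D D := ip_two hD D

/-- scalar product of products of two-forms -/
theorem ip_four {A B C D : Matrix J J ℝ} (hA : Sk A) (hB : Sk B) (hC : Sk C) (hD : Sk D) :
    ip (LM A (LM D (vac : Fk J))) (LM B (LM C vac)) =
      16 * (sp A C * sp D B) + 16 * (sp A B * sp D C) + 32 * sp D (B * A * C) := by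
  rw [Lm_adj, Lm_L hA hB, Lm_L hA hC, Lm_vac, map_zero, zero_add, Dv_vac, smul_zero, add_zero,
    Dv_L hC, Dv_vac, map_zero, zero_add, map_smul, ip_add_right, ip_add_right, ip_smul_right,
    ip_smul_right, ip_smul_right, ip_smul_right, ip_two hD, ip_two hD, ip_two hD]
  ring

/-- a derivation on a product of two-forms -/
theorem Dv_four {A B C : Matrix J J ℝ} (hA : Sk A) (hB : Sk B) (hC : Sk C) :
    Dv C (LM A (LM B (vac : Fk J))) =
      LM A (LM (C * B - B * C) vac) + LM (C * A - A * C) (LM B vac) := by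
  rw [Dv_L hA, Dv_L hB, Dv_vac, map_zero, zero_add, map_smul, L_br hC hB, L_br hC hA, map_smul]

theorem nn_four {A B : Matrix J J ℝ} (hA : Sk A) (hB : Sk B) :
    nn (LM A (LM B (vac : Fk J))) =
      16 * sp A B ^ 2 + 16 * (sp A A * sp B B) + 32 * sp B (A * A * B) := by
  unfold nn
  rw [ip_four hA hA hB hB, sp_comm B A]
  ring

end Pool.Agent.TH594.HE
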