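import Mathlib

/-!
# Real inequalities
-/

set_option autoImplicit false

namespace Pool.Agent.TH594.HE

/-- the cubic polynomial in `r` -/
def Sp (m r : ℝ) : ℝ :=
  6 * (2 * m - 1) * (2 * m - 3) * (2 * m - 5) - 6 * m * (2 * m - 3) * (2 * m - 5) * r +
    3 * (2 * m - 5) * m * (m - 1) * r ^ 2 - m * (m - 1) * (m - 2) * r ^ 3

/-- the lower bound -/
def Qp (m r E F : ℝ) : ℝ :=
  6 * (2 * m - 1) * (2 * m - 3) * (2 * m - 5) - 6 * m * (2 * m - 3) * (2 * m - 5) * r +
    3 * (2 * m - 5) * (m * (m - 1) * r ^ 2 - E) - r * (m - 2) * (m * (m - 1) * r ^ 2 - E) +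
    2 * (m - 3) * r * E + 4 * F

theorem Qp_eq (m r E F : ℝ) :
    Qp m r E F = Sp m r + E * ((3 * m - 8) * r - 3 * (2 * m - 5)) + 4 * F := by
  unfold Qp Sp
  ring

/-- dimension six -/
theorem key3 {r E F : ℝ} (hr : 0 ≤ r) (hE0 : 0 ≤ E) (hE : E ≤ 12 / 5 * r ^ 2)
    (hF : 53 / 500 * r * E ≤ F) : Sp 3 r ≤ Qp 3 r E F ∨ 0 < Qp 3 r E F := by
  rw [Qp_eq]
  rcases le_or_gt 3 (1424 / 1000 * r) with h | h
  · left
    have : 0 ≤ E * (1424 / 1000 * r - 3) := mul_nonneg hE0 (by linarith)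
    nlinarith
  · right
    have h1 : E * (3 - 1424 / 1000 * r) ≤ 12 / 5 * r ^ 2 * (3 - 1424 / 1000 * r) :=
      mul_le_mul_of_nonneg_right hE (by linarith)
    have h2 : r < 3000 / 1424 := by linarith
    have h3 : 0 < 90 - 54 * r + 108 / 10 * r ^ 2 - 25824 / 10000 * r ^ 3 := by
      have e : 90 - 54 * r + 108 / 10 * r ^ 2 - 25824 / 10000 * r ^ 3 =
          (90 - 54 * (3000 / 1424) + 108 / 10 * (3000 / 1424) ^ 2 -
            25824 / 10000 * (3000 / 1424) ^ 3) +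
          (3000 / 1424 - r) * (54 - 108 / 10 * (r + 3000 / 1424) +
            25824 / 10000 * (r ^ 2 + r * (3000 / 1424) + (3000 / 1424) ^ 2)) := by ring
      rw [e]
      have p1 : (0 : ℝ) < 90 - 54 * (3000 / 1424) + 108 / 10 * (3000 / 1424) ^ 2 -
            25824 / 10000 * (3000 / 1424) ^ 3 := by norm_num
      have p2 : 0 ≤ (3000 / 1424 - r) * (54 - 108 / 10 * (r + 3000 / 1424) +
            25824 / 10000 * (r ^ 2 + r * (3000 / 1424) + (3000 / 1424) ^ 2)) := by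
        refine mul_nonneg (by linarith) ?_
        have q1 : 0 ≤ 25824 / 10000 * (r ^ 2 + r * (3000 / 1424) + (3000 / 1424) ^ 2) := by
          positivity
        have q2 : 108 / 10 * (r + 3000 / 1424) ≤ 54 := by
          norm_num at h2 ⊢
          linarith
        linarith
      linarith
    unfold Sp
    nlinarith

/-- the dimensions from eight on -/
theorem key4 {m r E F : ℝ} (hm : 4 ≤ m) (hr : 0 ≤ r) (hE0 : 0 ≤ E)
    (hE : (2 * m - 1) * E ≤ m * (2 * m - 2) * r ^ 2) (hF : 0 ≤ F) :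
    Sp m r ≤ Qp m r E F ∨ 0 < Qp m r E F := by
  rcases le_or_gt (3 * (2 * m - 5)) ((3 * m - 8) * r) with h | h
  · left
    rw [Qp_eq]
    have : 0 ≤ E * ((3 * m - 8) * r - 3 * (2 * m - 5)) := mul_nonneg hE0 (by linarith)
    linarith
  · right
    have d1 : 0 < 2 * m - 1 := by linarith
    have d3 : 0 < 2 * m - 3 := by linarith
    have d5 : 0 < 2 * m - 5 := by linarith
    have dm : 0 < m := by linarith
    obtain ⟨x, hx⟩ : ∃ x, r = (2 * m - 1) * x / m := ⟨m * r / (2 * m - 1), by field_simp⟩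
    have hx' : m * r = (2 * m - 1) * x := by rw [hx]; field_simp
    have hx0 : 0 ≤ x := by
      have : 0 ≤ (2 * m - 1) * x := by rw [← hx']; positivity
      exact nonneg_of_mul_nonneg_right this d1
    have hx9 : x < 9 / 7 := by
      have h1 : (3 * m - 8) * ((2 * m - 1) * x) < 3 * (2 * m - 5) * m := by
        rw [← hx']
        nlinarith
      have h2 : 7 * m * (2 * m - 5) * x ≤ 3 * (3 * m - 8) * (2 * m - 1) * x := by
        refine mul_le_mul_of_nonneg_right ?_ hx0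
        nlinarith [mul_nonneg d3.le (by linarith : 0 ≤ m - 4)]
      have h3 : 7 * (m * (2 * m - 5)) * x < 9 * (m * (2 * m - 5)) := by nlinarith
      have h4 : 0 < m * (2 * m - 5) := by positivity
      have h5 : (m * (2 * m - 5)) * (7 * x) < (m * (2 * m - 5)) * 9 := by linarith
      have := lt_of_mul_lt_mul_left h5 h4.le
      linarith
    set A := m * (m - 1) * r ^ 2 - E with hA
    set B := 3 * (2 * m - 5) - (m - 2) * r with hB
    have hQ : Qp m r E F = 6 * (2 * m - 1) * (2 * m - 3) * (2 * m - 5) -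
        6 * (2 * m - 3) * (2 * m - 5) * (m * r) + A * B + 2 * (m - 3) * r * E + 4 * F := by
      unfold Qp
      rw [hA, hB]; ring
    have hA1 : 3 / 4 * (2 * m - 3) * (2 * m - 1) * x ^ 2 ≤ A := by
      have h1 : (2 * m - 1) * (m * A) ≥ m * (m * (m - 1) * (2 * m - 3) * r ^ 2) := by
        rw [hA]
        nlinarith
      have h2 : m * (m * (m - 1) * (2 * m - 3) * r ^ 2) =
          (m - 1) * (2 * m - 3) * ((2 * m - 1) * x) ^ 2 := by
        rw [← hx']; ring
      rw [h2] at h1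
      have h3 : (m - 1) * (2 * m - 3) * ((2 * m - 1) * x) ^ 2 ≥
          (2 * m - 1) * (m * (3 / 4 * (2 * m - 3) * (2 * m - 1) * x ^ 2)) := by
        have h4 : 3 / 4 * m ≤ m - 1 := by linarith
        have h5 : 0 ≤ (2 * m - 3) * ((2 * m - 1) * x) ^ 2 := by positivity
        nlinarith
      have h6 : (2 * m - 1) * (m * (3 / 4 * (2 * m - 3) * (2 * m - 1) * x ^ 2)) ≤
          (2 * m - 1) * (m * A) := h3.le.trans h1
      exact le_of_mul_le_mul_left (le_of_mul_le_mul_left h6 d1) dm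
    have hB1 : (2 * m - 5) * (3 - 7 / 6 * x) ≤ B := by
      have h1 : (m - 2) * ((2 * m - 1) * x) ≤ 7 / 6 * m * (2 * m - 5) * x := by
        have : (m - 2) * (2 * m - 1) ≤ 7 / 6 * m * (2 * m - 5) := by nlinarith
        have := mul_le_mul_of_nonneg_right this hx0
        linarith
      rw [← hx'] at h1
      have h2 : m * ((2 * m - 5) * (3 - 7 / 6 * x)) ≤ m * B := by
        rw [hB]
        nlinarith
      exact le_of_mul_le_mul_left h2 dm
    have hAB : 3 / 4 * (2 * m - 3) * (2 * m - 1) * x ^ 2 * ((2 * m - 5) * (3 - 7 / 6 * x)) ≤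
        A * B := by
      have p1 : 0 ≤ 3 / 4 * (2 * m - 3) * (2 * m - 1) * x ^ 2 := by positivity
      have p2 : 0 ≤ (2 * m - 5) * (3 - 7 / 6 * x) := mul_nonneg d5.le (by linarith)
      exact mul_le_mul hA1 hB1 p2 (p1.trans hA1)
    have hx6 : 0 < 6 - 6 * x + 3 / 4 * x ^ 2 * (3 - 7 / 6 * x) := by
      have e : 6 - 6 * x + 3 / 4 * x ^ 2 * (3 - 7 / 6 * x) =
          (6 - 6 * (9 / 7) + 3 / 4 * (9 / 7) ^ 2 * (3 - 7 / 6 * (9 / 7))) +
          (9 / 7 - x) * (6 - 9 / 4 * (x + 9 / 7) + 7 / 8 * (x ^ 2 + x * (9 / 7) + (9 / 7) ^ 2)) := by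
        ring
      rw [e]
      have p1 : (0 : ℝ) < 6 - 6 * (9 / 7) + 3 / 4 * (9 / 7) ^ 2 * (3 - 7 / 6 * (9 / 7)) := by
        norm_num
      have p2 : 0 ≤ (9 / 7 - x) *
          (6 - 9 / 4 * (x + 9 / 7) + 7 / 8 * (x ^ 2 + x * (9 / 7) + (9 / 7) ^ 2)) := by
        refine mul_nonneg (by linarith) ?_
        have : 0 ≤ x ^ 2 := sq_nonneg x
        nlinarith
      linarith
    have hfin : 0 < (2 * m - 1) * (2 * m - 3) * (2 * m - 5) *
        (6 - 6 * x + 3 / 4 * x ^ 2 * (3 - 7 / 6 * x)) := by positivity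
    have hrE : 0 ≤ 2 * (m - 3) * r * E := by
      have : 0 ≤ m - 3 := by linarith
      positivity
    rw [hQ, hx']
    nlinarith

/-- the cubic polynomial is negative beyond `16/5` -/
theorem Sp_neg {m r : ℝ} (hm : 4 ≤ m) (hr : 16 / 5 < r) : Sp m r < 0 := by
  have hu : Sp m (16 / 5) < 0 := by
    unfold Sp
    nlinarith [mul_nonneg (by linarith : 0 ≤ m - 4) (by linarith : 0 ≤ m - 4),
      mul_nonneg (mul_nonneg (by linarith : 0 ≤ m - 4) (by linarith : 0 ≤ m - 4))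
        (by linarith : 0 ≤ m - 4)]
  have e : Sp m r = Sp m (16 / 5) - (r - 16 / 5) * m *
      (6 * (2 * m - 3) * (2 * m - 5) - 3 * (2 * m - 5) * (m - 1) * (r + 16 / 5) +
        (m - 1) * (m - 2) * (r ^ 2 + r * (16 / 5) + (16 / 5) ^ 2)) := by
    unfold Sp; ring
  have h1 : 0 ≤ 6 * (2 * m - 3) * (2 * m - 5) - 3 * (2 * m - 5) * (m - 1) * (r + 16 / 5) +
        (m - 1) * (m - 2) * (r ^ 2 + r * (16 / 5) + (16 / 5) ^ 2) := by
    set v := r + 16 / 5 with hv
    have h2 : 3 / 4 * v ^ 2 ≤ r ^ 2 + r * (16 / 5) + (16 / 5) ^ 2 := by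
      rw [hv]
      nlinarith [sq_nonneg (r - 16 / 5)]
    have h3 : 0 < (m - 1) * (m - 2) := mul_pos (by linarith) (by linarith)
    have h4 : 0 ≤ (3 * ((m - 1) * (m - 2))) *
        (6 * (2 * m - 3) * (2 * m - 5) - 3 * (2 * m - 5) * (m - 1) * v +
          (m - 1) * (m - 2) * (3 / 4 * v ^ 2)) := by
      have e2 : (3 * ((m - 1) * (m - 2))) *
        (6 * (2 * m - 3) * (2 * m - 5) - 3 * (2 * m - 5) * (m - 1) * v +
          (m - 1) * (m - 2) * (3 / 4 * v ^ 2)) =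
          (3 / 2 * ((m - 1) * (m - 2)) * v - 3 * (2 * m - 5) * (m - 1)) ^ 2 +
            9 * ((2 * m - 5) * (m - 1)) * (2 * m ^ 2 - 7 * m + 7) := by ring
      rw [e2]
      have q1 : 0 ≤ (2 * m - 5) * (m - 1) := mul_nonneg (by linarith) (by linarith)
      have q2 : 0 ≤ 2 * m ^ 2 - 7 * m + 7 := by nlinarith
      positivity
    have h5 := nonneg_of_mul_nonneg_right h4 (by linarith)
    have h6 := mul_le_mul_of_nonneg_left h2 h3.le
    linarith
  have h2 : 0 ≤ (r - 16 / 5) * m *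
      (6 * (2 * m - 3) * (2 * m - 5) - 3 * (2 * m - 5) * (m - 1) * (r + 16 / 5) +
        (m - 1) * (m - 2) * (r ^ 2 + r * (16 / 5) + (16 / 5) ^ 2)) :=
    mul_nonneg (mul_nonneg (by linarith) (by linarith)) h1
  linarith

end Pool.Agent.TH594.HE
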