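import Pool.Agent.TH594.HE.Fam
import Pool.Agent.TH594.HE.Key
import Pool.Agent.TH594.HP.Final

/-!
# The alternating sum of an Einstein family
-/

set_option autoImplicit false

namespace Pool.Agent.TH594.HE

open Finset Pool.Agent.TH594.HP

section general

variable {J : Type*} [Fintype J] [DecidableEq J] {K : Type*} [Fintype K]

theorem O1_mono_dg (ν : K → J → J → ℝ) (j : ℕ) : ∀ (d : ℕ) (V W : Fk J → ℝ),
    (∀ f, Dg (d + 2 * j) f → V f ≤ W f) → ∀ f, Dg d f →
      ((O1 ν) ^ j) V f ≤ ((O1 ν) ^ j) W f := by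
  induction j with
  | zero =>
    intro d V W h f hf
    simpa using h f hf
  | succ j ih =>
    intro d V W h f hf
    rw [pow_succ, Module.End.mul_apply, Module.End.mul_apply]
    refine ih d (O1 ν V) (O1 ν W) ?_ f hf
    intro g hg
    rw [O1_apply, O1_apply]
    refine Finset.sum_le_sum fun a _ => h _ ?_
    have : d + 2 * (j + 1) = d + 2 * j + 2 := by ring
    rw [this]
    exact Dg_L hg _

theorem Eis.w_succ {ν : K → Matrix J J ℝ} {ρ : ℝ} (h : Eis ν ρ) (j : ℕ) :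
    w (nu ν) (j + 1) ≤ 2 * (ρ * (Fintype.card J - 2 * j)) * w (nu ν) j := by
  unfold w
  rw [pow_succ, Module.End.mul_apply]
  have h1 := O1_mono_dg (nu ν) j 0 (O1 (nu ν) nn)
    ((2 * (ρ * (Fintype.card J - 2 * j))) • nn) (fun f hf => by
      rw [O1_nn, Pi.smul_apply, smul_eq_mul]
      have := h.upper hf
      push_cast at this
      rw [zero_add] at this
      exact this) vac Dg_vac
  rw [map_smul, Pi.smul_apply, smul_eq_mul] at h1
  exact h1

end general

section family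

variable {m : ℕ} {K : Type*} [Fintype K]

/-- the coefficients of the alternating sum -/
noncomputable def GG (m : ℕ) (c : ℝ) (j : ℕ) : ℝ :=
  (m.choose j : ℝ) * ((2 * c) ^ (m - j) * (2 * (m - j)).factorial)

theorem TT_eq (ν : K → Fin m × Bool → Fin m × Bool → ℝ) (c : ℝ) (j : ℕ) :
    TT ν c j = GG m c j * w ν j := rfl

theorem GG_pos {c : ℝ} (hc : 0 < c) {j : ℕ} (hj : j ≤ m) : 0 < GG m c j := by
  unfold GG
  have : 0 < m.choose j := Nat.choose_pos hj
  positivity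

theorem GG_succ (c : ℝ) {j i : ℕ} (hji : j + (i + 1) = m) :
    GG m c j = GG m c (j + 1) * (4 * c * (j + 1) * (2 * (i + 1) - 1)) := by
  have hmj : m - j = i + 1 := by omega
  have hmj' : m - (j + 1) = i := by omega
  unfold GG
  rw [hmj, hmj']
  have h2 : ((m.choose (j + 1) : ℕ) : ℝ) * (j + 1) = (m.choose j : ℕ) * (i + 1) := by
    have := Nat.choose_succ_right_eq m j
    rw [hmj] at this
    exact_mod_cast this
  have h3 : (2 * (i + 1)).factorial = (2 * i + 2) * ((2 * i + 1) * (2 * i).factorial) := by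
    rw [show 2 * (i + 1) = (2 * i + 1) + 1 by ring, Nat.factorial_succ, Nat.factorial_succ]
  rw [h3]
  push_cast
  have e : (m.choose (j + 1) : ℝ) * ((2 * c) ^ i * (2 * i).factorial) *
      (4 * c * (j + 1) * (2 * (i + 1) - 1)) = ((m.choose (j + 1) : ℝ) * (j + 1)) *
        (((2 * c) ^ i * (2 * i).factorial) * (4 * c * (2 * (i + 1) - 1))) := by ring
  rw [e, h2]
  ring

variable {ν : K → Matrix (Fin m × Bool) (Fin m × Bool) ℝ} {ρ : ℝ}

theorem card_J : (Fintype.card (Fin m × Bool) : ℝ) = 2 * m := by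
  rw [Fintype.card_prod, Fintype.card_fin, Fintype.card_bool]; push_cast; ring

theorem TT_le (h : Eis ν ρ) {c : ℝ} (hc : 0 < c) {j i : ℕ} (hji : j + (i + 1) = m) :
    TT (nu ν) c (j + 1) * (c * (j + 1) * (2 * (i + 1) - 1)) ≤
      ρ * (i + 1) * TT (nu ν) c j := by
  have h1 := h.w_succ j
  rw [card_J] at h1
  have h2 : (j : ℝ) + (i + 1) = m := by exact_mod_cast hji
  rw [TT_eq, TT_eq, GG_succ c hji]
  have hg : 0 < GG m c (j + 1) := GG_pos hc (by omega)
  have h3 : (2 * (ρ * (2 * m - 2 * j))) = 4 * ρ * (i + 1) := by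
    rw [← h2]; ring
  rw [h3] at h1
  have h4 : 0 ≤ GG m c (j + 1) * (c * (j + 1) * (2 * (i + 1) - 1)) := by
    have : (0 : ℝ) ≤ 2 * (i + 1) - 1 := by
      have : (0 : ℝ) ≤ i := Nat.cast_nonneg i
      linarith
    positivity
  have h5 := mul_le_mul_of_nonneg_left h1 h4
  linarith

theorem TT_mono (h : Eis ν ρ) {c : ℝ} (hc : 0 < c) (hρ : ρ ≤ 16 / 5 * c) (hm : 4 ≤ m)
    {j i : ℕ} (hj : 2 ≤ j) (hji : j + (i + 1) = m) : TT (nu ν) c (j + 1) ≤ TT (nu ν) c j := by
  have h1 := TT_le h hc hji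
  have t0 := TT_nonneg (nu ν) hc.le j
  have t1 := TT_nonneg (nu ν) hc.le (j + 1)
  have hi0 : (0 : ℝ) ≤ i := Nat.cast_nonneg i
  have hj2 : (2 : ℝ) ≤ j := by exact_mod_cast hj
  have h2 : 16 / 5 * ((i : ℝ) + 1) ≤ (j + 1) * (2 * (i + 1) - 1) := by
    rcases Nat.lt_or_ge j 3 with h3 | h3
    · have hj2' : j = 2 := by omega
      subst hj2'
      have : (1 : ℝ) ≤ i := by
        have : 1 ≤ i := by omega
        exact_mod_cast this
      push_cast
      linarith
    · have : (3 : ℝ) ≤ j := by exact_mod_cast h3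
      nlinarith
  have h3 : ρ * (i + 1) * TT (nu ν) c j ≤ 16 / 5 * c * (i + 1) * TT (nu ν) c j := by
    refine mul_le_mul_of_nonneg_right ?_ t0
    exact mul_le_mul_of_nonneg_right hρ (by linarith)
  have h4 : TT (nu ν) c (j + 1) * (c * (j + 1) * (2 * (i + 1) - 1)) ≤
      c * (16 / 5 * (i + 1)) * TT (nu ν) c j := by linarith
  have h5 : c * (16 / 5 * (i + 1)) * TT (nu ν) c j ≤
      c * ((j + 1) * (2 * (i + 1) - 1)) * TT (nu ν) c j := by
    refine mul_le_mul_of_nonneg_right (mul_le_mul_of_nonneg_left h2 hc.le) t0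
  have h6 : 0 < c * ((j + 1) * (2 * (i + 1) - 1)) := by
    have : (0 : ℝ) < 2 * (i + 1) - 1 := by linarith
    positivity
  have h7 : c * ((j + 1) * (2 * (i + 1) - 1)) * TT (nu ν) c (j + 1) ≤
      c * ((j + 1) * (2 * (i + 1) - 1)) * TT (nu ν) c j := by linarith
  exact le_of_mul_le_mul_left h7 h6

theorem tail (T : ℕ → ℝ) (h0 : ∀ j, 0 ≤ T j) (n : ℕ) : ∀ k : ℕ, 2 ≤ k →
    (∀ j, 2 ≤ j → j < k + n → T (j + 1) ≤ T j) → 0 ≤ F T n k ∧ F T n k ≤ T k := by
  induction n with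
  | zero =>
    intro k _ _
    rw [F_zero]
    exact ⟨h0 k, le_rfl⟩
  | succ n ih =>
    intro k hk h
    obtain ⟨h1, h2⟩ := ih (k + 1) (by omega) (fun j hj hj2 => h j hj (by omega))
    have h3 := h k hk (by omega)
    rw [F_succ]
    exact ⟨by linarith, by linarith⟩

theorem F_four (T : ℕ → ℝ) (hm : 4 ≤ m) :
    F T m 0 = T 0 - T 1 + T 2 - T 3 + F T (m - 4) 4 := by
  obtain ⟨n, rfl⟩ := Nat.exists_eq_add_of_le hm
  rw [show 4 + n = (((n + 1) + 1) + 1) + 1 by ring, F_succ, F_succ, F_succ, F_succ,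
    show (n + 1 + 1 + 1 + 1) - 4 = n by omega]
  ring

theorem F_thr (T : ℕ → ℝ) : F T 3 0 = T 0 - T 1 + T 2 - T 3 := by
  rw [show (3 : ℕ) = ((0 + 1) + 1) + 1 by norm_num, F_succ, F_succ, F_succ, F_zero]
  ring

/-- **lower bound of the alternating sum** by the polynomial -/
theorem F_ge_Q {h : Pr (Fin m × Bool) → Matrix (Fin m × Bool) (Fin m × Bool) ℝ}
    {lam : Pr (Fin m × Bool) → ℝ} (Fm : Fam h lam ρ) {c : ℝ} (hc : 0 < c) (hm : 3 ≤ m)
    (hρ : m = 3 ∨ ρ ≤ 16 / 5 * c) :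
    GG m c 0 * Qp m (ρ / c) (ee lam ρ / c ^ 2) (ff lam ρ / c ^ 3) ≤
      (6 * (2 * m - 1) * (2 * m - 3) * (2 * m - 5)) *
        F (TT (nu fun p => Real.sqrt (lam p) • h p) c) m 0 := by
  set ν' := fun p => Real.sqrt (lam p) • h p with hν
  have hE := Fm.ev
  have hO := Fm.ov
  have hw2 := w2_eq hE hO
  have hw3 := w3_le hE hO
  rw [card_J] at hw2 hw3
  have hmR : (3 : ℝ) ≤ m := by exact_mod_cast hm
  obtain ⟨k, hk⟩ := Nat.exists_eq_add_of_le hm
  have hkR : (m : ℝ) = 3 + k := by exact_mod_cast hk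
  have g0 : GG m c 0 = GG m c 1 * (4 * c * (2 * m - 1)) := by
    have := GG_succ (m := m) c (j := 0) (i := m - 1) (by omega)
    rw [this]
    have e : ((m - 1 : ℕ) : ℝ) = m - 1 := by
      rw [Nat.cast_sub (by omega)]; norm_num
    rw [e]
    push_cast
    ring
  have g1 : GG m c 1 = GG m c 2 * (4 * c * 2 * (2 * m - 3)) := by
    have := GG_succ (m := m) c (j := 1) (i := m - 2) (by omega)
    rw [this]
    have e : ((m - 2 : ℕ) : ℝ) = m - 2 := by
      rw [Nat.cast_sub (by omega)]; norm_num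
    rw [e]
    push_cast
    ring
  have g2 : GG m c 2 = GG m c 3 * (4 * c * 3 * (2 * m - 5)) := by
    have := GG_succ (m := m) c (j := 2) (i := m - 3) (by omega)
    rw [this]
    have e : ((m - 3 : ℕ) : ℝ) = m - 3 := by
      rw [Nat.cast_sub (by omega)]; norm_num
    rw [e]
    push_cast
    ring
  have gp : 0 < GG m c 3 := GG_pos hc hm
  have t0 : TT (nu ν') c 0 = GG m c 0 := by rw [TT_eq, w_zero, mul_one]
  have t1 : TT (nu ν') c 1 = GG m c 1 * (4 * m * ρ) := by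
    rw [TT_eq, w_one hE.bi.anti, hE.tt, card_J]; ring
  have hsum : ∑ a, lam a ^ 2 = m * ρ ^ 2 - ee lam ρ := by
    have := Fm.ee_eq
    rw [card_J] at this
    linarith
  have t2 : TT (nu ν') c 2 = GG m c 2 * (16 * (m * (m - 1) * ρ ^ 2 - ee lam ρ)) := by
    rw [TT_eq, hw2, hsum]; ring
  have t3 : TT (nu ν') c 3 ≤ GG m c 3 * (64 * ρ * (m - 2) * (m * (m - 1) * ρ ^ 2 - ee lam ρ) -
      128 * (m - 3) * ρ * ee lam ρ - 256 * ff lam ρ) := by
    rw [TT_eq]
    refine mul_le_mul_of_nonneg_left (hw3.trans (le_of_eq ?_)) gp.le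
    rw [hw2, hsum]
    unfold ee ff
    ring
  have hF : TT (nu ν') c 0 - TT (nu ν') c 1 + TT (nu ν') c 2 - TT (nu ν') c 3 ≤
      F (TT (nu ν') c) m 0 := by
    rcases Nat.lt_or_ge m 4 with h4 | h4
    · have hm3 : m = 3 := by omega
      subst hm3
      rw [F_thr]
    · have hρ' : ρ ≤ 16 / 5 * c := by
        rcases hρ with h3 | h3
        · omega
        · exact h3
      rw [F_four _ h4]
      have := (tail (TT (nu ν') c) (TT_nonneg (nu ν') hc.le) (m - 4) 4 (by norm_num)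
        (fun j hj hj2 => TT_mono hE hc hρ' h4 (i := m - j - 1) hj (by omega))).1
      linarith
  have d1 : (0 : ℝ) < 2 * m - 1 := by linarith
  have d3 : (0 : ℝ) < 2 * m - 3 := by linarith
  have d5 : (0 : ℝ) < 2 * m - 5 := by linarith
  have hD : (0 : ℝ) < 6 * (2 * m - 1) * (2 * m - 3) * (2 * m - 5) := by positivity
  refine le_trans ?_ (mul_le_mul_of_nonneg_left hF hD.le)
  have key : GG m c 0 * Qp m (ρ / c) (ee lam ρ / c ^ 2) (ff lam ρ / c ^ 3) =
      (6 * (2 * m - 1) * (2 * m - 3) * (2 * m - 5)) *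
        (GG m c 0 - GG m c 1 * (4 * m * ρ) +
          GG m c 2 * (16 * (m * (m - 1) * ρ ^ 2 - ee lam ρ)) -
          GG m c 3 * (64 * ρ * (m - 2) * (m * (m - 1) * ρ ^ 2 - ee lam ρ) -
            128 * (m - 3) * ρ * ee lam ρ - 256 * ff lam ρ)) := by
    rw [g0, g1, g2]
    unfold Qp
    field_simp
    ring
  rw [key]
  refine mul_le_mul_of_nonneg_left ?_ hD.le
  rw [t0, t1, t2]
  linarith

/-- the sign of the alternating sum -/
theorem F_sign {h : Pr (Fin m × Bool) → Matrix (Fin m × Bool) (Fin m × Bool) ℝ}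
    {lam : Pr (Fin m × Bool) → ℝ} (Fm : Fam h lam ρ) {c : ℝ} (hc : 0 < c) (hm : 3 ≤ m) :
    (0 ≤ Sp m (ρ / c) → 0 ≤ F (TT (nu fun p => Real.sqrt (lam p) • h p) c) m 0) ∧
    (0 < Sp m (ρ / c) → 0 < F (TT (nu fun p => Real.sqrt (lam p) • h p) c) m 0) := by
  haveI : Nonempty (Fin m × Bool) := ⟨(⟨0, by omega⟩, true)⟩
  have hmR : (3 : ℝ) ≤ m := by exact_mod_cast hm
  have hρ0 : 0 ≤ ρ := Fm.rho
  have he0 := Fm.ee_nonneg
  have hf0 := Fm.ff_nonneg
  have hE0 : 0 ≤ ee lam ρ / c ^ 2 := by positivity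
  have hF0 : 0 ≤ ff lam ρ / c ^ 3 := by positivity
  have hr0 : 0 ≤ ρ / c := by positivity
  have d1 : (0 : ℝ) < 2 * m - 1 := by linarith
  have d3 : (0 : ℝ) < 2 * m - 3 := by linarith
  have d5 : (0 : ℝ) < 2 * m - 5 := by linarith
  have hD : (0 : ℝ) < 6 * (2 * m - 1) * (2 * m - 3) * (2 * m - 5) := by positivity
  have hG : 0 < GG m c 0 := GG_pos hc (Nat.zero_le m)
  have hee : ee lam ρ * (2 * m - 1) ≤ 2 * m * (2 * m - 2) / 2 * ρ ^ 2 := by
    have := Fm.ee_le
    rw [card_J] at this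
    rcases this with h1 | h1
    · exact h1
    · linarith
  have alt : Sp m (ρ / c) ≤ Qp m (ρ / c) (ee lam ρ / c ^ 2) (ff lam ρ / c ^ 3) ∨
      0 < Qp m (ρ / c) (ee lam ρ / c ^ 2) (ff lam ρ / c ^ 3) := by
    rcases Nat.lt_or_ge m 4 with h4 | h4
    · have hm3 : m = 3 := by omega
      subst hm3
      have e3 : ((3 : ℕ) : ℝ) = 3 := by norm_num
      rw [e3] at hee ⊢
      refine key3 hr0 hE0 ?_ ?_
      · rw [div_pow, ← mul_div_assoc, div_le_div_iff_of_pos_right (by positivity)]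
        linarith
      · have h1 := Fm.ff_ge (by simp)
        have e : 53 / 500 * (ρ / c) * (ee lam ρ / c ^ 2) = (53 / 500 * ρ * ee lam ρ) / c ^ 3 := by
          field_simp
        rw [e, div_le_div_iff_of_pos_right (by positivity)]
        exact h1
    · refine key4 (by exact_mod_cast h4) hr0 hE0 ?_ hF0
      have e1 : (2 * (m : ℝ) - 1) * (ee lam ρ / c ^ 2) = (ee lam ρ * (2 * m - 1)) / c ^ 2 := by
        ring
      have e2 : (m : ℝ) * (2 * m - 2) * (ρ / c) ^ 2 = (m * (2 * m - 2) * ρ ^ 2) / c ^ 2 := by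
        rw [div_pow]; ring
      rw [e1, e2, div_le_div_iff_of_pos_right (by positivity)]
      linarith
  have main : ∀ (_ : 0 ≤ Sp m (ρ / c)), GG m c 0 * Qp m (ρ / c) (ee lam ρ / c ^ 2)
      (ff lam ρ / c ^ 3) ≤ (6 * (2 * m - 1) * (2 * m - 3) * (2 * m - 5)) *
        F (TT (nu fun p => Real.sqrt (lam p) • h p) c) m 0 := by
    intro hS
    refine F_ge_Q Fm hc hm ?_
    rcases Nat.lt_or_ge m 4 with h4 | h4
    · left; omega
    · right
      by_contra hcon
      have h1 : 16 / 5 < ρ / c := by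
        rw [lt_div_iff₀ hc]
        exact not_le.mp hcon
      have h2 := Sp_neg (m := (m : ℝ)) (by exact_mod_cast h4) h1
      linarith
  constructor
  · intro hS
    have h1 := main hS
    have h2 : 0 ≤ Qp m (ρ / c) (ee lam ρ / c ^ 2) (ff lam ρ / c ^ 3) := by
      rcases alt with h3 | h3
      · linarith
      · exact h3.le
    have h3 := (mul_nonneg hG.le h2).trans h1
    exact nonneg_of_mul_nonneg_right h3 hD
  · intro hS
    have h1 := main hS.le
    have h2 : 0 < Qp m (ρ / c) (ee lam ρ / c ^ 2) (ff lam ρ / c ^ 3) := by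
      rcases alt with h3 | h3
      · linarith
      · exact h3
    have h3 := (mul_pos hG h2).trans_le h1
    exact (pos_iff_pos_of_mul_pos h3).1 hD

end family

end Pool.Agent.TH594.HE
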